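import Mathlib
import Pool.Agent.Lib.Pabc9.ThmEProof

open Filter

namespace Pool.Agent.Results.MP_2ec8a3_nt.AllTriples

/-- The radical of `n`: the product of the distinct primes dividing `n`. -/
def rad (n : ℕ) : ℕ := ∏ p ∈ n.primeFactors, p

/-- `(a, b, c)` is an abc-triple: pairwise coprime positive integers with `a + b = c`. -/
def AbcTriple (a b c : ℕ) : Prop :=
  0 < a ∧ 0 < b ∧ 0 < c ∧ a.Coprime b ∧ a.Coprime c ∧ b.Coprime c ∧ a + b = c

/-- All abc-triples `(a, b, c)` with `rad (abc) ≤ Y`; there is no condition on the size of `c`. -/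
def triples (Y : ℕ) : Set (ℕ × ℕ × ℕ) :=
  {t | AbcTriple t.1 t.2.1 t.2.2 ∧ rad (t.1 * t.2.1 * t.2.2) ≤ Y}

open Pool.Agent.Lib.Pabc1 Pool.Agent.Lib.Pabc2 Pool.Agent.Lib.Pabc9

/-- The condition on pairs. -/
def LP (Y : ℕ) (t : ℕ × ℕ) : Prop := rd t ≤ Y

theorem LP_swap {Y : ℕ} {t : ℕ × ℕ} (h : LP Y t) : LP Y t.swap := by
  have e1 : N t.swap = N t := by
    unfold N
    simp only [Prod.fst_swap, Prod.snd_swap]
    ring
  unfold LP rd at *
  rw [e1]
  exact h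

/-- For every `ε > 0`, for all sufficiently large `Y` there are at most `Y ^ (15/16 + ε)`
abc-triples `(a, b, c)` with `rad (abc) ≤ Y`, without any condition on the size of `c`. -/
theorem result (ε : ℝ) (hε : 0 < ε) :
    ∀ᶠ Y : ℕ in atTop, (triples Y).Finite ∧
      ((triples Y).ncard : ℝ) ≤ (Y : ℝ) ^ (15 / 16 + ε) := by
  classical
  filter_upwards [main_all thmE ε hε] with Y hY
  set B : ℝ := (Y : ℝ) ^ (15 / 16 + ε) with hB
  have key0 : ∀ T : Finset (ℕ × ℕ), (∀ t ∈ T, IsT t ∧ LP Y t) → 2 * (T.card : ℝ) ≤ B := by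
    intro T hT
    refine (hY T hT).trans (le_of_eq ?_)
    rw [hB]
    congr 1
    norm_num
  have key : ∀ T : Finset (ℕ × ℕ), (∀ t ∈ T, (0 < t.1 ∧ 0 < t.2 ∧ Nat.Coprime t.1 t.2) ∧
      LP Y t) → (T.card : ℝ) ≤ B := by
    intro T hT
    have h1 := key0 (T.filter (fun t => t.1 ≤ t.2)) (by
      intro t ht'
      rw [Finset.mem_filter] at ht'
      obtain ⟨⟨a1, a2, a3⟩, a4⟩ := hT t ht'.1
      exact ⟨⟨a1, ht'.2, a3⟩, a4⟩)
    have h3 := key0 ((T.filter (fun t => ¬ t.1 ≤ t.2)).image Prod.swap) (by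
      intro t ht'
      rw [Finset.mem_image] at ht'
      obtain ⟨s, hs, rfl⟩ := ht'
      rw [Finset.mem_filter] at hs
      obtain ⟨⟨a1, a2, a3⟩, a4⟩ := hT s hs.1
      refine ⟨⟨a2, ?_, a3.symm⟩, LP_swap a4⟩
      simp only [Prod.fst_swap, Prod.snd_swap]
      omega)
    rw [Finset.card_image_of_injective _ Prod.swap_injective] at h3
    have hcard : (T.card : ℝ) = (T.filter (fun t => t.1 ≤ t.2)).card +
        (T.filter (fun t => ¬ t.1 ≤ t.2)).card := by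
      exact_mod_cast (Finset.card_filter_add_card_filter_not (s := T) (fun t => t.1 ≤ t.2)).symm
    linarith
  set PS : Set (ℕ × ℕ) := {t | (0 < t.1 ∧ 0 < t.2 ∧ Nat.Coprime t.1 t.2) ∧ LP Y t} with hPS
  have hfin : PS.Finite := finite_of_card_le PS _ (fun T hT => key T (fun t ht' => hT t ht'))
  have hcardPS : (PS.ncard : ℝ) ≤ B := by
    rw [Set.ncard_eq_toFinset_card _ hfin]
    apply key
    intro t ht'
    exact (Set.Finite.mem_toFinset hfin).mp ht'
  set f : ℕ × ℕ × ℕ → ℕ × ℕ := fun t => (t.1, t.2.1) with hf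
  have hinj : Set.InjOn f (triples Y) := by
    rintro ⟨a, b, c⟩ ht ⟨a', b', c'⟩ ht' heq
    simp only [hf, Prod.mk.injEq] at heq
    obtain ⟨rfl, rfl⟩ := heq
    have h1 := ht.1.2.2.2.2.2.2
    have h2 := ht'.1.2.2.2.2.2.2
    simp only at h1 h2
    rw [← h1, ← h2]
  have hmaps : f '' triples Y ⊆ PS := by
    rintro _ ⟨⟨a, b, c⟩, ht, rfl⟩
    obtain ⟨⟨h1, h2, h3c, h3, _, _, h4⟩, h5⟩ := ht
    simp only at h1 h2 h3 h3c h4 h5
    subst h4
    exact ⟨⟨h1, h2, h3⟩, h5⟩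
  have hfin' : (f '' triples Y).Finite := hfin.subset hmaps
  refine ⟨Set.Finite.of_finite_image hfin' hinj, ?_⟩
  rw [← hinj.ncard_image]
  refine le_trans ?_ hcardPS
  exact_mod_cast Set.ncard_le_ncard hmaps hfin

end Pool.Agent.Results.MP_2ec8a3_nt.AllTriples
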