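import Mathlib
import Pool.Agent.Lib.P5c592f.Q2

/-!
Reserve: replaced by `AsymptoticAllDimensions`.  Claim of the former hand-in:

Proves: For every algebraically closed field k of any characteristic, every N with 1 ≤ N ≤ 3 and every finite set S of points of P^N over k, if a(S,m)/m tends to (a(S,1)+N-1)/N as m tends to infinity (that is, the Waldschmidt constant e(S) equals (a(S,1)+N-1)/N), then S lies in a hyperplane, or there are s ≥ N hyperplanes, any at most N+1 of them with linearly independent equations, such that S is exactly the set of points lying on at least N of them (a star configuration).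
Definitions: none
Relation: Partial answer to Q2: it is the affirmative answer to Q2 for N ≤ 3 (all characteristics), where e(S) is given as the limit of a(S,m)/m. The proof shows that near-equality for one large m already forces a form of degree a(S,1)+N-1 with order at least N on S. N ≥ 4 is not treated. Earlier work treats equality at the single level m = N only: Bocci-Chiantini (N = 2) and Bauer-Szemberg (The effect of points fattening in dimension three, N = 3); it does not treat e(S).
-/

set_option autoImplicit false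

namespace Pool.Agent.Results.MP_5c592f_ag.AsymptoticUpToThree

/-- Question 2 for `N ≤ 3`: over an algebraically closed field of any characteristic, if a finite
set `S` of points in projective `N`-space, `N ≤ 3`, has Waldschmidt constant
`e(S) = (a(S,1)+N-1)/N`, then `S` lies in a hyperplane or is a star configuration. -/
theorem result :
  ∀ (k : Type) [Field k] [IsAlgClosed k] (N : ℕ), 1 ≤ N → N ≤ 3 →
  ∀ (S : Finset (Projectivization k (Fin (N+1) → k))) (a : ℕ → ℕ),
    (∀ m : ℕ, 1 ≤ m → IsLeast {d : ℕ | ∃ F : MvPolynomial (Fin (N+1)) k, F ≠ 0 ∧ F.IsHomogeneous d ∧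
        ∀ p ∈ S, F ∈ (Ideal.span {G : MvPolynomial (Fin (N+1)) k |
            G.IsHomogeneous 1 ∧ MvPolynomial.eval p.rep G = 0}) ^ m} (a m)) →
    Filter.Tendsto (fun m : ℕ => (a m : ℝ) / (m : ℝ)) Filter.atTop
      (nhds (((a 1 : ℝ) + (N : ℝ) - 1) / (N : ℝ))) →
    (∃ φ : (Fin (N+1) → k) →ₗ[k] k, φ ≠ 0 ∧ ∀ p ∈ S, φ p.rep = 0) ∨
    (∃ (s : ℕ) (c : Fin s → ((Fin (N+1) → k) →ₗ[k] k)), N ≤ s ∧
      (∀ t : Finset (Fin s), t.card ≤ N + 1 → LinearIndepOn k c (t : Set (Fin s))) ∧
      ∀ p : Projectivization k (Fin (N+1) → k),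
        p ∈ S ↔ N ≤ {j : Fin s | c j p.rep = 0}.ncard) := by
  intro k _ _ N hN1 hN3 S a ha hlim
  have h1 := ha 1 le_rfl
  apply Pool.Agent.Lib.P5c592f.concl_of_near hN1 hN3 h1
  intro ε hε
  have hN0 : (0 : ℝ) < N := by exact_mod_cast hN1
  have h2 : ((a 1 : ℝ) + (N : ℝ) - 1) / (N : ℝ) < ((a 1 : ℝ) + (N : ℝ) - 1 + ε) / (N : ℝ) := by
    apply div_lt_div_of_pos_right _ hN0
    linarith
  have h3 := (hlim.eventually (gt_mem_nhds h2)).and (Filter.eventually_ge_atTop 1)
  obtain ⟨m, hm, hm1⟩ := h3.exists
  refine ⟨m, a m, hm1, (ha m hm1).1, ?_⟩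
  have hm0 : (0 : ℝ) < m := by exact_mod_cast hm1
  rw [div_lt_div_iff₀ hm0 hN0] at hm
  linarith

end Pool.Agent.Results.MP_5c592f_ag.AsymptoticUpToThree
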