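import Pool.Agent.Lib.ConwayAuto.Summary

/-!
# Automatic invariants of Conway's permutation

For every base `b ≥ 2` with no prime factor other than 2 and 3, a `b`-automatic set of natural numbers that is closed under
Conway's permutation `g` is finite or cofinite. So no such set contains `12 = g 8` but not `8`.
-/

set_option autoImplicit false

namespace Pool.Agent.Lib.Reserve.AutomaticInvariantsOldff1266

/-- Conway's permutation of the problem: `2m ↦ 3m`, `4m - 1 ↦ 3m - 1`, `4m + 1 ↦ 3m + 1` (and `0 ↦ 0`) -/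
def g (n : ℕ) : ℕ := if n % 2 = 0 then 3 * (n / 2) else (3 * n + 1) / 4

/-- `S` is `b`-automatic: the sets `{m : b^w m + r ∈ S}`, `w ≥ 0`, `0 ≤ r < b^w`, are finitely many -/
def AutomaticIn (b : ℕ) (S : Set ℕ) : Prop :=
  {T : Set ℕ | ∃ w r : ℕ, r < b ^ w ∧ T = {m : ℕ | b ^ w * m + r ∈ S}}.Finite

theorem g_eq (n : ℕ) : ConwayAuto.g n = g n := by
  unfold ConwayAuto.g g
  split_ifs with h1 h2
  · rfl
  · omega
  · omega

/-- Automatic sets closed under Conway's permutation are finite or cofinite. -/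
theorem result :
    (∀ (b : ℕ) (S : Set ℕ), 2 ≤ b → (∀ p : ℕ, p.Prime → p ∣ b → p = 2 ∨ p = 3) → AutomaticIn b S →
      (∀ n ∈ S, g n ∈ S) → S.Finite ∨ Sᶜ.Finite) ∧
    ¬ ∃ (b : ℕ) (S : Set ℕ), 2 ≤ b ∧ (∀ p : ℕ, p.Prime → p ∣ b → p = 2 ∨ p = 3) ∧ AutomaticIn b S ∧
      (∀ n ∈ S, g n ∈ S) ∧ 12 ∈ S ∧ 8 ∉ S := by
  constructor
  · intro b S hb hp hA hS
    exact ConwayAuto.smooth_base b hb hp S hA (fun n hn => by rw [g_eq]; exact hS n hn)
  · rintro ⟨b, S, hb, hp, hA, hS, h12, h8⟩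
    exact ConwayAuto.no_smooth_invariant
      ⟨b, S, hb, hp, hA, fun n hn => by rw [g_eq]; exact hS n hn, h12, h8⟩

end Pool.Agent.Lib.Reserve.AutomaticInvariantsOldff1266
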