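import Pool.Agent.Lib.P28c.Sub

set_option autoImplicit false

/-!
# Concentration and finiteness for diffeomorphisms of complex projective space

`a` bounds the connection form `(dΦ_x)⁻¹ ∘ D²Φ_x` of a homogeneous lift `Φ` of a diffeomorphism of `CP^n` pointwise.
The energy `∫ a^(2n)` over the unit ball is the scale invariant (critical) one.

There is `c > 0`, depending only on `n`, such that for all `E` and all `ρ > 0` there are `s ≤ ρ` and a finite
set `𝒢` of diffeomorphisms for which every diffeomorphism with a lift of energy at most `E` is isotopic to a composition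
`G ∘ Ψ` with `G ∈ 𝒢` and a diffeomorphism `Ψ` that is the identity outside of the balls of radius `ρ` about at most `E / c`
points `Q j` with energy at least `c` in the ball of radius `s`.
-/

open MeasureTheory Metric

namespace Pool.Agent.Results.MP_28b04d_gt.Concentration

open Pool.Agent.P28b04d Pool.Agent.Lib.P28e Pool.Agent.Lib.P28c

theorem result (n : ℕ) (hn : 1 ≤ n) : ∃ c : ℝ, 0 < c ∧ ∀ E ρ : ℝ, 0 ≤ E → 0 < ρ →
    ∃ s : ℝ, 0 < s ∧ s ≤ ρ ∧
      ∃ 𝒢 : Set (W n → W n), 𝒢.Finite ∧ (∀ G ∈ 𝒢, HLoc G ∧ Function.Injective G) ∧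
      ∀ (Φ : W n → W n) (a : W n → ℝ), HLoc Φ → Function.Injective Φ → ConnLe Φ a →
      ∫⁻ x in ball (0 : W n) 1, ENNReal.ofReal (a x) ^ (2 * n) ≤ ENNReal.ofReal E →
      ∃ (k : ℕ) (Q : Fin k → Mat n), (k : ℝ) * c ≤ E ∧
        (∀ j, Q j ∈ CP n ∧ ENNReal.ofReal c ≤
          ∫⁻ x in ball (0 : W n) 1 ∩ {x | fd (pt x) (Q j) < s}, ENNReal.ofReal (a x) ^ (2 * n)) ∧
        (∀ i j, i ≠ j → 2 * s ≤ fd (Q i) (Q j)) ∧
        ∃ G ∈ 𝒢, ∃ Ψ : W n → W n, HLoc Ψ ∧ Function.Injective Ψ ∧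
          (∀ z : W n, z ≠ 0 → (∀ j, ρ ≤ fd (pt z) (Q j)) → Ψ z = z) ∧
          ∀ F : Mat n → Mat n, (∀ z : W n, z ≠ 0 → F (pt (G (Ψ z))) = pt (Φ z)) →
            IsotopicToId n F :=
  (main_a n hn).1

end Pool.Agent.Results.MP_28b04d_gt.Concentration
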