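import Pool.Agent.Lib.P28b04d.Final

set_option autoImplicit false

/-!
# Isotopy criterion for diffeomorphisms of complex projective space

Three equivalent conditions on a map `F` of matrices, restricted to `CP^n`
(rank-one Hermitian projections):
1. `F` is smoothly isotopic to the identity of `CP^n` (the conclusion of S12917, for all `n`);
2. `F` is induced by a homogeneous lift which can be joined to a complex linear automorphism by
   a finite chain of lifts, consecutive ones having no singular convex combination of their
   real derivatives at any nonzero point;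
3. `F` is induced by a finite composition of homogeneous lifts with positive definite derivative.
-/

namespace Pool.Agent.Results.MP_28b04d_gt.ConvexLifts

open Pool.Agent.P28b04d

theorem result (n : ℕ)
    (F : (Fin (n + 1) → Fin (n + 1) → ℂ) → (Fin (n + 1) → Fin (n + 1) → ℂ)) :
    List.TFAE [
      IsotopicToId n F,
      ∃ (A : (Fin (n + 1) → ℂ) ≃ₗ[ℂ] (Fin (n + 1) → ℂ)) (Φ : (Fin (n + 1) → ℂ) → (Fin (n + 1) → ℂ)),
        Relation.ReflTransGen Step A Φ ∧ ∀ z : Fin (n + 1) → ℂ, z ≠ 0 → F (pt z) = pt (Φ z),
      ∃ l : List ((Fin (n + 1) → ℂ) → (Fin (n + 1) → ℂ)), (∀ Θ ∈ l, PosLift Θ) ∧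
        ∀ z : Fin (n + 1) → ℂ, z ≠ 0 → F (pt z) = pt (l.foldr (fun f g => f ∘ g) id z)] :=
  main n F

end Pool.Agent.Results.MP_28b04d_gt.ConvexLifts
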