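import Pool.Agent.Lib.P28g.CritE

set_option autoImplicit false

/-!
# The critical energy is finite and proper on the diffeomorphisms of complex projective space

`Diffh n F` (for `n = 2` the hypotheses of S12917): `F` restricts to a diffeomorphism of `CP^n` which is homotopic to the identity.
A homogeneous lift `Φ` of `F` is smooth off `0`, `Φ (c z) = c Φ z` for complex `c`, `F (pt z) = pt (Φ z)`; `(dΦ_x)⁻¹ ∘ D²Φ_x` are the
coefficients of the pulled back flat connection. `critE n F` is the infimum over all lifts of the integral over the unit ball of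
the norm of these coefficients to the power `2n = dim CP^n`, the scale invariant exponent, for which the Sobolev embedding into
continuous functions fails. It is finite, and for every `E < ∞` the maps with `critE n F ≤ E` lie in finitely many smooth
isotopy classes.
-/

open scoped ENNReal

namespace Pool.Agent.Results.MP_28b04d_gt.CriticalFiniteness

open Pool.Agent.P28b04d Pool.Agent.Lib.P28g

theorem result (n : ℕ) (hn : 1 ≤ n) :
    (∀ F : (Fin (n + 1) → Fin (n + 1) → ℂ) → (Fin (n + 1) → Fin (n + 1) → ℂ),
      Diffh n F → critE n F < ⊤) ∧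
    ∀ E : ℝ≥0∞, E < ⊤ →
      ∃ S : Set ((Fin (n + 1) → Fin (n + 1) → ℂ) → (Fin (n + 1) → Fin (n + 1) → ℂ)),
        S.Finite ∧ (∀ G ∈ S, Diffh n G) ∧
        ∀ F : (Fin (n + 1) → Fin (n + 1) → ℂ) → (Fin (n + 1) → Fin (n + 1) → ℂ),
          Diffh n F → critE n F ≤ E → ∃ G ∈ S, Isotopic n F G :=
  ⟨fun _ h => critE_lt_top h, fun _ hE => critE_proper n hn hE⟩

end Pool.Agent.Results.MP_28b04d_gt.CriticalFiniteness
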