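import Pool.Agent.Lib.Rfa.CubicD

/-!
Retractions of degree at most three of the free associative algebra of rank three.
-/

namespace Pool.Agent.Results.MP_b7cb8e_al.CubicRankThree

/-- the span of the words in the elements `g x` whose length is at most `n` -/
def DegreeLE (k : Type*) [Field k] {F X : Type*} [Ring F] [Algebra k F] (g : X → F) (n : ℕ) :
    Submodule k F :=
  Submodule.span k {f | ∃ l : List X, l.length ≤ n ∧ (l.map g).prod = f}

/-- Let `F` be a free associative algebra of rank three over a field with free generators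
`g 0, g 1, g 2`, and let `π` be an idempotent endomorphism of `F` such that all `π (g i)` have
degree at most three.  Then the retract `π(F)` is free. -/
theorem result {k : Type*} [Field k] {F : Type*} [Ring F] [Algebra k F] (g : Fin 3 → F)
    (hg : Function.Bijective (FreeAlgebra.lift k g)) (π : F →ₐ[k] F) (hπ : ∀ f, π (π f) = π f)
    (h : ∀ i, π (g i) ∈ DegreeLE k g 3) :
    ∃ B : Set F, Nonempty (π.range ≃ₐ[k] FreeAlgebra k B) := by
  classical
  set σ : FreeAlgebra k (Fin 3) ≃ₐ[k] F := AlgEquiv.ofBijective _ hg with hσ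
  have hσι : ∀ z, σ (FreeAlgebra.ι k z) = g z := fun z => by
    show FreeAlgebra.lift k g (FreeAlgebra.ι k z) = g z
    simp
  have hσι' : ∀ z, σ.symm (g z) = FreeAlgebra.ι k z := fun z => by
    rw [← hσι, σ.symm_apply_apply]
  set π' : FreeAlgebra k (Fin 3) →ₐ[k] FreeAlgebra k (Fin 3) :=
    (σ.symm.toAlgHom.comp π).comp σ.toAlgHom with hπ'
  have hπ'σ : ∀ f, π' f = σ.symm (π (σ f)) := fun f => rfl
  have hσπ : ∀ f, σ (π' f) = π (σ f) := fun f => σ.apply_symm_apply _
  have hidem : ∀ f, π' (π' f) = π' f := fun f => σ.injective (by rw [hσπ, hσπ, hπ])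
  have hdeg : ∀ (ε : FreeAlgebra k (Fin 3) →ₐ[k] k) (i : Fin 3),
      π' (FreeAlgebra.ι k i) ∈ Rfa.Dg ε 3 := by
    intro ε i
    refine Rfa.Wd_le_Dg ε 3 ?_
    rw [hπ'σ, hσι]
    have h1 := Rfa.Wd_map σ.symm.toAlgHom g {j | j ≤ 3} (f := π (g i)) (h i)
    have h2 : (fun x => σ.symm.toAlgHom (g x)) = FreeAlgebra.ι k := funext hσι'
    rw [h2] at h1
    exact h1
  have h3 : π'.range.map σ.toAlgHom = π.range := by
    ext f
    constructor
    · rintro ⟨_, ⟨a, rfl⟩, rfl⟩
      exact ⟨σ a, (hσπ a).symm⟩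
    · rintro ⟨a, rfl⟩
      refine ⟨_, ⟨σ.symm a, rfl⟩, ?_⟩
      refine (hσπ _).trans ?_
      rw [AlgEquiv.apply_symm_apply]
      rfl
  have e1 : π'.range ≃ₐ[k] π.range := by
    rw [← h3]
    exact Subalgebra.equivMapOfInjective _ σ.toAlgHom σ.injective
  rcases Rfa.cubic3 π' hidem hdeg with ⟨m, hm, ⟨e⟩⟩ | ⟨B, φ, h1, h2⟩
  · have hinj : Function.Injective (fun i : Fin m => g (Fin.castLE hm i)) := by
      intro i j hij
      have h4 : FreeAlgebra.ι k (Fin.castLE hm i) = FreeAlgebra.ι k (Fin.castLE hm j) :=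
        σ.injective (by rw [hσι, hσι]; exact hij)
      exact Fin.castLE_injective hm (FreeAlgebra.ι_injective h4)
    exact ⟨Set.range (fun i : Fin m => g (Fin.castLE hm i)),
      ⟨(e1.symm.trans e).trans (Rfa.vmapE k (Equiv.ofInjective _ hinj))⟩⟩
  · have e2 : FreeAlgebra k B ≃ₐ[k] π'.range := by
      rw [← h2]
      exact AlgEquiv.ofInjective φ h1
    have e3 : B ≃ (σ '' B : Set F) := σ.toEquiv.image B
    exact ⟨σ '' B, ⟨(e1.symm.trans e2.symm).trans (Rfa.vmapE k e3)⟩⟩

end Pool.Agent.Results.MP_b7cb8e_al.CubicRankThree
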