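import Pool.Agent.Lib.P2ec0f3.Final

/-!
Reserve: replaced by `NearDiagonalBias`.  Claim of the former hand-in:

Proves: For d >= 2, a unit vector ℓ in R^d with |ℓ_1| = ... = |ℓ_d| and λ > 0 there is κ > 0 such that for every p in (p_c(d), 1], if v and v_1 are the limiting velocities at p and at 1, then v_1·ℓ > 0 and v·ℓ <= v_1·ℓ / (1 + κ(1-p)); so v(λ,p)·ℓ < v(λ,1)·ℓ for every p in (p_c,1).
Definitions: Vtx: Z^d; Edge: (x,j) is the edge x, x+e_j (basisVec); nbr, edgeTo: neighbour, edge to it; weight: e^{λ(y-x)·ℓ} if the edge is open, else 0; total: their sum; stepLaw, stepKernel, pastKernel: jump to y with probability weight/total (stay if all edges are closed); quenched: law of this Markov chain from 0; percolation: i.i.d. Bernoulli(p) open edges; openGraph: graph of open edges; zeroInfinite: 0 is in an infinite cluster; criticalParam: sup of the p with P_p(zeroInfinite)=0; IsVelocity v: given zeroInfinite, for a.e. environment a.e. path has X_n/n -> v.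
Relation: Partial answer to Q1: the case p'=1 of the monotonicity, strict and quantitative, for all p in (p_c,1), all λ and all d, for the diagonal directions. Other directions and p < p' < 1 are not covered. Proof: entropy inequality for the occupation measure, giving v·ℓ <= v(λ,1)·ℓ in every environment, with a gain at record vertices. Earlier work in mind: first order expansion of the speed at p=1 (Fribergh 2010); I know no comparison away from p=1.
-/

/-!
# MP_2ec0f3_pr: the speed of the biased walk on percolation is largest at `p = 1`, diagonal bias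

For every `d ≥ 2`, every unit vector `ℓ` all of whose coordinates have the same absolute value and
every `λ > 0` there is `κ > 0` such that `v(λ,p)·ℓ ≤ v(λ,1)·ℓ / (1 + κ (1 - p))` for every
`p ∈ (p_c, 1]`; the right hand side is positive, so `v(λ,p)·ℓ < v(λ,1)·ℓ` for every
`p ∈ (p_c, 1)`.
-/

open Pool.Agent.P2ec0f3
open scoped unitInterval

namespace Pool.Agent.Results.MP_2ec0f3_pr.DiagonalBias

theorem result {d : ℕ} (hd : 2 ≤ d) (ℓ : Fin d → ℝ) (hunit : ∑ j, ℓ j ^ 2 = 1)
    (hdiag : ∀ i j, |ℓ i| = |ℓ j|) (lam : ℝ) (hlam : 0 < lam) :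
    ∃ κ : ℝ, 0 < κ ∧ ∀ (p : I), criticalParam d < p → ∀ v v₁ : Fin d → ℝ,
      IsVelocity ℓ lam p v → IsVelocity ℓ lam 1 v₁ →
        0 < ∑ j, v₁ j * ℓ j ∧
        ∑ j, v j * ℓ j ≤ (∑ j, v₁ j * ℓ j) / (1 + κ * (1 - (p : ℝ))) := by
  obtain ⟨κ, hκ, h⟩ := diagonal_speed ℓ lam (by omega) hunit hdiag hlam
  refine ⟨κ, hκ, fun p hp v v₁ hv hv₁ => ?_⟩
  obtain ⟨h1, h2⟩ := h p hp v v₁ hv hv₁
  refine ⟨h1, ?_⟩
  have h3 : 0 < 1 + κ * (1 - (p : ℝ)) := by
    have : 0 ≤ κ * (1 - (p : ℝ)) := mul_nonneg hκ.le (by linarith [p.2.2])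
    linarith
  rw [le_div_iff₀ h3]
  linarith

end Pool.Agent.Results.MP_2ec0f3_pr.DiagonalBias
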