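import Pool.Agent.Lib.Pb99418A.Typical

/-!
Reserve: replaced by `DiameterLimit`.  Claim of the former hand-in:

Proves: Let x = 2.467... be the positive root of x^3 = x^2+2x+4 and W_n the largest weighted length of an element of G_n when a, b, c, d have weights 0, x^2, 2x, 4. Then W_n/x^n tends to a limit k > 0, and 0.3775 k x^n <= D_n <= 0.4478 k x^n for all large n.
Definitions: act/gen: generators a,b,c,d acting on words (List Bool); G: the group they generate; stab n: elements fixing all words of length n; Gn n = G/stab n; gbar: images of the generators; len n g: least k such that g is a product of k of them; D n: largest len; wgt p q r s: sum of the weights 0, p, q, r of the letters a, b, c, d of the word s; wlen p q r n g: infimum of wgt over the words with product g; Dw p q r n: supremum of wlen over Gn n (W_n for the weights above).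
Relation: Partial answer to Q1: D_n/x^n is asymptotically constant up to a factor 1.19, and the analogous quotient for the weights above converges. Before: our hand-in SharpOrder, c x^n <= D_n <= C x^n with C/c enormous, used here only to see that k is finite and positive. Open: the value of k, the limit of D_n/x^n if any, the exact D_n, Q2. The contraction of weights is that of Bartholdi's growth bound exp(C r^0.767).
-/

/-!
# The diameters of the level quotients of the Grigorchuk group up to a factor `1.19`

Let `x = 2.467…` be the positive root of `x ^ 3 = x ^ 2 + 2 x + 4`.  Give the letters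
`a, b, c, d` the weights `0, x ^ 2, 2 x, 4`.  The largest weighted length of an element of `G_n`,
divided by `x ^ n`, converges to a limit `κ > 0`, and
`0.3775 κ x ^ n ≤ D_n ≤ 0.4478 κ x ^ n` for all large `n`.

Idea of the proof.  If the letters have weights `0, B, C, D` that satisfy the triangle
inequalities, a word of weight `W` has two sections of total weight at most `W + K` for the weights
`T (B, C, D) = ((B + C + D) / 2, B, C)`, and `T` multiplies `λ = (x ^ 2, 2 x, 4)` by `x / 2`.
Applied to the elements `(g, a g a)` this gives `M_{n+1} ≥ x M_n - K` for the maximum `M_n` of the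
weighted length, and `M_n = O(x ^ n)` (our earlier upper bound of the diameter) gives the limit.
The normalized iterates of `T` map the weights `(1, 1, 1)` towards a multiple of `λ`, which gives
the lower bound.  Upper bound: as `d a d = a d a d a`, among the words of minimal `λ`-weight a
shortest one has at most about half of its letters `b, c, d` equal to `d`, so its `λ`-weight is at
least `x + 2` times the number of these letters.
-/

namespace Pool.Agent.Results.MP_b99418_al.DiameterRatio

open Pool.Agent.Lib.Pb99418 Pool.Agent.Lib.Pb99418A Pool.Agent.Lib.Pb99418U Filter Topology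

theorem result :
    ∃ x κ : ℝ, 0 < x ∧ x ^ 3 = x ^ 2 + 2 * x + 4 ∧
      (∀ y : ℝ, 0 < y → y ^ 3 = y ^ 2 + 2 * y + 4 → y = x) ∧ 0 < κ ∧
      Tendsto (fun n => Dw (x ^ 2) (2 * x) 4 n / x ^ n) atTop (𝓝 κ) ∧
      ∀ᶠ n : ℕ in atTop, 0.3775 * κ * x ^ n ≤ D n ∧ (D n : ℝ) ≤ 0.4478 * κ * x ^ n := by
  obtain ⟨x, hx0, hx3⟩ := exists_root
  have hx : 2.46 ≤ x := by linarith [root_lower hx0 hx3]
  obtain ⟨κ, hκ, hκl, hD⟩ := D_lim hx hx3 (root_upper hx0 hx3)
  exact ⟨x, κ, hx0, hx3, fun y hy0 hy => root_unique x y hx0 hx3 hy0 hy, hκ, hκl, hD⟩

end Pool.Agent.Results.MP_b99418_al.DiameterRatio
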