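import Pool.Agent.Lib.P28e.Bound

set_option autoImplicit false

/-!
# A global critical energy gap for diffeomorphisms of complex projective space

For a homogeneous lift `Φ` of a self-map of `CP^n` (smooth off `0`, `Φ (c z) = c Φ z`, injective real derivative) let
`conn Φ x = (dΦ_x)⁻¹ ∘ D²Φ_x` (the coefficients of the pulled back flat connection) and
`energy Φ = ∫_{|x| < 1} |conn Φ x|^(2n) dx`; the exponent `2n = dim CP^n` is the scale invariant (critical) one.
If the energy is below a constant depending only on `n`, the induced map of `CP^n` is smoothly isotopic to the identity.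
For `n = 2` the conclusion is literally that of S12917. No closeness of `Φ` to a linear map and no bound of `dΦ` or its
inverse is assumed.
-/

open MeasureTheory Metric

namespace Pool.Agent.Results.MP_28b04d_gt.EnergyGap

open Pool.Agent.P28b04d Pool.Agent.Lib.P28e

theorem result (n : ℕ) (hn : 1 ≤ n) : ∃ c : ℝ, 0 < c ∧ ∀ (Φ : W n → W n) (a : W n → ℝ), HLoc Φ → ConnLe Φ a →
    ∫⁻ x in ball (0 : W n) 1, ENNReal.ofReal (a x) ^ (2 * n) ≤ ENNReal.ofReal c →
    ∀ F : (Fin (n + 1) → Fin (n + 1) → ℂ) → (Fin (n + 1) → Fin (n + 1) → ℂ),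
      (∀ z : W n, z ≠ 0 → F (pt z) = pt (Φ z)) → IsotopicToId n F :=
  main_bound n hn

end Pool.Agent.Results.MP_28b04d_gt.EnergyGap
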