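import Mathlib
import Pool.Agent.Lib.P0c8ca5.WtEquiv
import Pool.Agent.Lib.P0c8ca5N.TrC
import Pool.Agent.Lib.P0c8ca5C.EqC
import Pool.Agent.Lib.P0c8ca5Y.MixY
import Pool.Agent.Lib.P0c8ca5W.VacR5

/-!
# When the weight conjecture for a block implies its equivariant form

`G` is a normal subgroup of the finite group `Γ`, with `Γ / G` a `p`-group, and `e` is the block
idempotent of a `Γ`-invariant block `B` of `G`; it is a block idempotent of `Γ` as well.

1. The following are equivalent: Navarro's equality holds for `(G, H, B)` for all `H` between `G` and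
   `Γ`; it holds for all `(N, H, b)` with `G ≤ N ⊴ H ≤ Γ` and `b` the block of `N` covering `B`; there
   is a `Γ`-equivariant bijection between the irreducible Brauer characters of `B` and the
   `G`-classes of `B`-weights.
2. Let Navarro's equality hold for `(G, H, B)` for all `H ≠ G` between `G` and `Γ`.  Then it holds for
   all `(N, H, b)` in 1 with `N ≠ H`; the difference `l(B) - w(B)` of the numbers of irreducible
   Brauer characters and of classes of weights of `B` is `|Γ : G|` times the same difference for the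
   block `e` of `Γ`; and the blockwise Alperin weight conjecture for `B` alone, the blockwise Alperin
   weight conjecture for the block `e` of `Γ` alone, and the statements in 1 are equivalent.
3. Let `E` be a defect group of the block `e` of `Γ` and `V ≤ G` a `p`-solvable normal subgroup of
   `Γ`; let `Ē = E V / V` and `Ē₀ = Ē ∩ G / V`.  We say that `E` is small in `K` if `K` has a normal
   subgroup `M` such that `K / M` is `p`-solvable and for every nonabelian simple section `T = f(J)`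
   of `K` (`J ≤ K`) the image `f(J ∩ E ∩ M)` is cyclic; for example if `(E ∩ M) S / S` is cyclic for
   some `p`-solvable normal subgroup `S` of `K`, or if the nonabelian composition factors of `K` have
   cyclic Sylow `p`-subgroups.  For
   `Q ≤ E` consider the condition `LC(Q)`: `E` is small in `N_G(Q)`, or for all `T ≤ Q` with
   `G T = G Q` the fixed points of `T` on `Ē₀` form a cyclic group or the centralizer of `T V / V` in
   `G / V` is `p`-nilpotent.
   * If `LC(Q)` holds for all `Q ≤ E` not contained in `G` with `Q = O_p(N_{G Q}(Q))`, or if all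
     subgroups of `Ē` are generated by two elements, then the hypothesis of 2 holds, unconditionally.
   * If `LC(Q)` holds for all `Q ≤ E` with `Q = O_p(N_{G Q}(Q))`, for example if `E` is small in `G`,
     then all statements in 1 hold, unconditionally.
4. The statements in 1 hold if the blockwise Alperin weight conjecture holds for all blocks of all
   subgroups of `G`; the blockwise Alperin weight conjecture for all finite groups is equivalent to
   its equivariant form.
-/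

namespace Pool.Agent.Results.MP_0c8ca5_al.EquivariantForm

open Pool.Agent.Lib.P0c8ca5

universe u v

/-- There is a bijection from the irreducible Brauer characters of the block to the classes of
weights that commutes with conjugation by all elements. -/
def EquivBij (p : ℕ) {k : Type*} [Field k] {Γ : Type*} [Group Γ] (G : Subgroup Γ)
    (e : MonoidAlgebra k Γ) : Prop :=
  ∃ β : Quotient (irrInvSetoid G ⊥ e) ≃ Quotient (wtSetoid p G e G),
    ∀ (a : Γ) (ρ σ : IrrInv G ⊥ e) (w w' : Wt p G e), RConj a ρ σ → WConj a w w' →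
      β (Quotient.mk _ ρ) = Quotient.mk _ w → β (Quotient.mk _ σ) = Quotient.mk _ w'

/-- `Γ / G` is a `p`-group, and `e` is the idempotent of a `Γ`-invariant block of `G`. -/
structure InvBlock (p : ℕ) {k : Type*} [Field k] {Γ : Type*} [Group Γ] (G : Subgroup Γ)
    [G.Normal] (e : MonoidAlgebra k Γ) : Prop where
  pgroup : IsPGroup p (Γ ⧸ G)
  block : IsBlock G e
  inv : ∀ g x : Γ, e.coeff (g * x * g⁻¹) = e.coeff x

/-- `Q = O_p(N_H(Q))`: the `p`-group `Q ≤ H` contains all normal `p`-subgroups of `N_H(Q)`. -/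
def IsRadicalIn (p : ℕ) {Γ : Type*} [Group Γ] (H Q : Subgroup Γ) : Prop :=
  IsPGroup p Q ∧ Q ≤ H ∧ ∀ R : Subgroup Γ, IsPGroup p R →
    R ≤ H ⊓ Subgroup.normalizer (Q : Set Γ) →
    H ⊓ Subgroup.normalizer (Q : Set Γ) ≤ Subgroup.normalizer (R : Set Γ) → R ≤ Q

/-- `K` has a normal subgroup `M` such that `K / M` is `p`-solvable and the image of `E ∩ M` in every
nonabelian simple section of `K` is cyclic. -/
def Small (p : ℕ) {Γ : Type u} [Group Γ] (K E : Subgroup Γ) : Prop :=
  ∃ M : Subgroup Γ, M ≤ K ∧ (∀ h ∈ K, ∀ x ∈ M, h * x * h⁻¹ ∈ M) ∧ Ps.PSolv p ↥(sec K M) ∧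
    ∀ (T : Type u) [Group T] [IsSimpleGroup T], (∃ x y : T, x * y ≠ y * x) →
      ∀ (J : Subgroup Γ) (f : ↥J →* T), J ≤ K → Function.Surjective f →
        IsCyclic ↥(((E ⊓ M).subgroupOf J).map f)

/-- The condition on the subgroup `Q` of the defect group `E`, modulo `V`. -/
def LocalCond (p : ℕ) {Γ : Type u} [Group Γ] (G E V : Subgroup Γ) [V.Normal] (Q : Subgroup Γ) :
    Prop :=
  let π : Γ →* Γ ⧸ V := QuotientGroup.mk' V
  Small p (G ⊓ Subgroup.normalizer (Q : Set Γ)) E ∨
    ∀ T : Subgroup Γ, T ≤ Q → G ⊔ T = G ⊔ Q →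
      IsCyclic ↥(E.map π ⊓ G.map π ⊓ Subgroup.centralizer (T.map π : Set (Γ ⧸ V))) ∨
      ¬ p ∣ Nat.card ↥(Subgroup.closure {x : Γ ⧸ V | x ∈ G.map π ∧
        x ∈ Subgroup.centralizer (T.map π : Set (Γ ⧸ V)) ∧ ¬ p ∣ orderOf x})

theorem InvBlock.pow {p : ℕ} {k : Type*} [Field k] {Γ : Type*} [Group Γ] {G : Subgroup Γ}
    [G.Normal] {e : MonoidAlgebra k Γ} (h : InvBlock p G e) (x : Γ) : ∃ n : ℕ, x ^ p ^ n ∈ G := by
  obtain ⟨n, hn⟩ := h.pgroup (QuotientGroup.mk x)
  refine ⟨n, ?_⟩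
  rwa [← QuotientGroup.mk_pow, QuotientGroup.eq_one_iff] at hn

theorem InvBlock.invBy {p : ℕ} {k : Type*} [Field k] {Γ : Type*} [Group Γ] {G : Subgroup Γ}
    [G.Normal] {e : MonoidAlgebra k Γ} (h : InvBlock p G e) : InvBy ⊤ e := fun g _ x => h.inv g x

theorem le_norm {Γ : Type*} [Group Γ] {N H : Subgroup Γ}
    (h : ∀ g ∈ H, ∀ x ∈ N, g * x * g⁻¹ ∈ N) : H ≤ Subgroup.normalizer (N : Set Γ) := by
  intro g hg
  rw [Subgroup.mem_normalizer_iff]
  intro x
  refine ⟨h g hg x, fun hx => ?_⟩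
  have h1 := h g⁻¹ (H.inv_mem hg) _ hx
  have e1 : g⁻¹ * (g * x * g⁻¹) * g⁻¹⁻¹ = x := by group
  rwa [e1] at h1

theorem Small.simRel {p : ℕ} {Γ : Type u} [Group Γ] {K E : Subgroup Γ}
    (h : Small p K E) : Vc.SimRel p K E := by
  obtain ⟨M, h1, h2, h3, h4⟩ := h
  refine ⟨M, h1, le_norm h2, h3, fun T _ _ hT P hP _ => ?_⟩
  obtain ⟨J, f, hf, hP⟩ := hP
  let κ : ↥(J.map K.subtype) ≃* ↥J := (J.equivMapOfInjective _ K.subtype_injective).symm
  have hJK : J.map K.subtype ≤ K := by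
    rintro _ ⟨x, _, rfl⟩
    exact x.2
  have h5 := h4 T hT (J.map K.subtype) (f.comp κ.toMonoidHom) hJK (hf.comp κ.surjective)
  refine Ps.cyc_of_le (hP.trans ?_) h5
  rintro _ ⟨j, hj, rfl⟩
  have h7 := Subgroup.mem_subgroupOf.1 (Subgroup.mem_subgroupOf.1 hj)
  refine ⟨κ.symm j, Subgroup.mem_subgroupOf.2 h7, ?_⟩
  change f (κ (κ.symm j)) = f j
  rw [κ.apply_symm_apply]

section

variable {p : ℕ} [Fact p.Prime] {k : Type v} [Field k] [IsAlgClosed k] [CharP k p]
  {Γ : Type u} [Group Γ] [Finite Γ] {G : Subgroup Γ} [G.Normal] {e : MonoidAlgebra k Γ}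

theorem cover_eq (h : InvBlock p G e) {N : Subgroup Γ} (hGN : G ≤ N) {b : MonoidAlgebra k Γ}
    (hb : IsBlock N b) (hbe : b * e ≠ 0) : b = e := by
  rcases hb.eq_or_mul_eq_zero (isBlock_up hGN h.pow h.block h.invBy) with h1 | h1
  · exact h1
  · exact absurd h1 hbe

theorem tfae_equivariant (h : InvBlock p G e) :
    List.TFAE [
      ∀ H : Subgroup Γ, G ≤ H → NavarroEq p G H e,
      ∀ N H : Subgroup Γ, G ≤ N → N ≤ H → (∀ h ∈ H, ∀ n ∈ N, h * n * h⁻¹ ∈ N) →
        ∀ b : MonoidAlgebra k Γ, IsBlock N b → b * e ≠ 0 → NavarroEq p N H b,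
      EquivBij p G e] := by
  have : Fintype Γ := Fintype.ofFinite Γ
  have key := equivariant_iff (p := p) h.pow h.block h.invBy
  tfae_have 1 → 3 := key.1.1
  tfae_have 3 → 2 := by
    intro h3 N H hGN hNH hn b hb hbe
    rw [cover_eq h hGN hb hbe]
    exact key.2 h3 N H hGN hNH (le_norm hn)
  tfae_have 2 → 1 := by
    intro h2 H hGH
    refine h2 G H (le_refl G) hGH ?_ e h.block (by rw [h.block.idem]; exact h.block.ne_zero)
    intro h _ n hn
    exact Subgroup.Normal.conj_mem inferInstance n hn h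
  tfae_finish

theorem navarro_of_subgroups (h : InvBlock p G e)
    (hN : ∀ N : Subgroup Γ, N ≤ G → ∀ b : MonoidAlgebra k Γ, IsBlock N b → NavarroEq p N N b)
    (H : Subgroup Γ) (hGH : G ≤ H) : NavarroEq p G H e := by
  have : Fintype Γ := Fintype.ofFinite Γ
  exact navarro_of_baw hGH (fun x _ => mem_norm_of_normal G x) (fun x _ => h.pow x) h.block
    (h.invBy.mono le_top) (fun σ _ _ _ b hb _ => hN _ inf_le_left b hb)

theorem almost_all (h : InvBlock p G e) (hH : ∀ H : Subgroup Γ, G < H → NavarroEq p G H e) :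
    (∀ N H : Subgroup Γ, G ≤ N → N < H → (∀ h ∈ H, ∀ n ∈ N, h * n * h⁻¹ ∈ N) →
        ∀ b : MonoidAlgebra k Γ, IsBlock N b → b * e ≠ 0 → NavarroEq p N H b) ∧
      G.index * Nat.card (Quotient (irrInvSetoid (⊤ : Subgroup Γ) ⊤ e))
          + Nat.card (Quotient (wtSetoid p G e G))
        = G.index * Nat.card (Quotient (wtSetoid p (⊤ : Subgroup Γ) e ⊤))
          + Nat.card (Quotient (irrInvSetoid G ⊥ e)) ∧
      List.TFAE [NavarroEq p G G e, NavarroEq p ⊤ ⊤ e, EquivBij p G e] := by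
  have : Fintype Γ := Fintype.ofFinite Γ
  refine ⟨?_, Cy.card_add_eq h.pow h.block h.invBy hH, ?_⟩
  · intro N H hGN hNH hn b hb hbe
    rw [cover_eq h hGN hb hbe]
    exact Cy.navarro_lt h.pow h.block h.invBy hH hGN hNH (le_norm hn)
  · have key := (equivariant_iff (p := p) h.pow h.block h.invBy).1
    tfae_have 1 → 3 := by
      intro h1
      refine key.1 (fun H hGH => ?_)
      by_cases h2 : G = H
      · rw [← h2]; exact h1
      · exact hH H (lt_of_le_of_ne hGH h2)
    tfae_have 3 → 1 := fun h3 => key.2 h3 G le_rfl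
    tfae_have 1 ↔ 2 := (Cy.navarro_self_iff h.pow h.block h.invBy hH le_top).symm
    tfae_finish

theorem localCond (h : InvBlock p G e) {E : Subgroup Γ} (hE : IsDefectGroup p ⊤ e E)
    {V : Subgroup Γ} [hV : V.Normal] (hVs : Ps.PSolv p ↥V) (hVG : V ≤ G) (H : Subgroup Γ)
    (hGH : G ≤ H) (Sp : Subgroup Γ → Prop) (hSp : ∀ (x : Γ) (S : Subgroup Γ), Sp S → Sp (cg x S))
    (hSH : ∀ S : Subgroup Γ, G ⊔ S = H → Sp S)
    (hl : ∀ Q : Subgroup Γ, Q ≤ E → Sp Q → IsRadicalIn p (G ⊔ Q) Q → LocalCond p G E V Q) :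
    NavarroEq p G H e := by
  have : Fintype Γ := Fintype.ofFinite Γ
  refine Vc.navarro_mixS5 h.pow h.block h.invBy hE hVs hVG hGH Sp hSp hSH ?_
  intro Q hQE hQs hrad
  rcases hl Q hQE hQs ⟨hE.isPGroup.to_le hQE, le_sup_right, hrad⟩ with h1 | h1
  · exact Or.inl (Or.inr h1.simRel)
  · exact Or.inr (fun S hS hGS => h1 S hS hGS)

theorem equiv_of_local (h : InvBlock p G e) {E : Subgroup Γ} (hE : IsDefectGroup p ⊤ e E)
    {V : Subgroup Γ} [hV : V.Normal] (hVs : Ps.PSolv p ↥V) (hVG : V ≤ G)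
    (hl : ∀ Q : Subgroup Γ, Q ≤ E → IsRadicalIn p (G ⊔ Q) Q → LocalCond p G E V Q) :
    EquivBij p G e :=
  ((tfae_equivariant h).out 0 2).1 (fun H hGH => localCond h hE hVs hVG H hGH
    (fun _ => True) (fun _ _ _ => trivial) (fun _ _ => trivial) (fun Q hQ _ hr => hl Q hQ hr))

theorem equiv_of_small (h : InvBlock p G e) {E : Subgroup Γ} (hE : IsDefectGroup p ⊤ e E)
    (hs : Small p G E) : EquivBij p G e := by
  have : Fintype Γ := Fintype.ofFinite Γ
  have hbot : Ps.PSolv p ↥(⊥ : Subgroup Γ) :=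
    ⟨0, fun _ => ⊥, rfl, Subsingleton.elim _ _, fun _ => inferInstance,
      fun i hi => absurd hi (Nat.not_lt_zero i)⟩
  refine ((tfae_equivariant h).out 0 2).1 (fun H hGH => ?_)
  refine Vc.navarro_mixS5 (V := ⊥) h.pow h.block h.invBy hE hbot bot_le hGH
    (fun _ => True) (fun _ _ _ => trivial) (fun _ _ => trivial) ?_
  intro Q _ _ _
  exact Or.inl (Or.inr (hs.simRel.mono inf_le_left))

theorem navarro_gt (h : InvBlock p G e) {E : Subgroup Γ} (hE : IsDefectGroup p ⊤ e E)
    {V : Subgroup Γ} [hV : V.Normal] (hVs : Ps.PSolv p ↥V) (hVG : V ≤ G)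
    (hl : (∀ Q : Subgroup Γ, Q ≤ E → ¬ Q ≤ G → IsRadicalIn p (G ⊔ Q) Q →
        LocalCond p G E V Q) ∨
      ∀ N : Subgroup Γ, N ≤ E → Group.rank ↥(N.map (QuotientGroup.mk' V)) ≤ 2)
    (H : Subgroup Γ) (hGH : G < H) : NavarroEq p G H e := by
  have : Fintype Γ := Fintype.ofFinite Γ
  rcases hl with hl | hl
  · refine localCond h hE hVs hVG H hGH.le (fun S => ¬ S ≤ G) ?_ ?_ hl
    · intro x S hS h1
      apply hS
      have := cg_le_cg (g := x⁻¹) h1
      rwa [cg_cg, inv_mul_cancel, cg_one, cg_normal] at this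
    · intro S hS h1
      rw [sup_eq_left.2 h1] at hS
      exact hGH.ne hS
  · exact Ps.navarro_gtW h.pow h.block h.invBy hE hVs hVG hl hGH

end

theorem result {p : ℕ} [Fact p.Prime] {k : Type v} [Field k] [IsAlgClosed k] [CharP k p] :
    (∀ (Γ : Type u) [Group Γ] [Finite Γ] (G : Subgroup Γ) [G.Normal] (e : MonoidAlgebra k Γ),
      InvBlock p G e →
      List.TFAE [
        ∀ H : Subgroup Γ, G ≤ H → NavarroEq p G H e,
        ∀ N H : Subgroup Γ, G ≤ N → N ≤ H → (∀ h ∈ H, ∀ n ∈ N, h * n * h⁻¹ ∈ N) →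
          ∀ b : MonoidAlgebra k Γ, IsBlock N b → b * e ≠ 0 → NavarroEq p N H b,
        EquivBij p G e] ∧
      ((∀ H : Subgroup Γ, G < H → NavarroEq p G H e) →
        (∀ N H : Subgroup Γ, G ≤ N → N < H → (∀ h ∈ H, ∀ n ∈ N, h * n * h⁻¹ ∈ N) →
          ∀ b : MonoidAlgebra k Γ, IsBlock N b → b * e ≠ 0 → NavarroEq p N H b) ∧
        G.index * Nat.card (Quotient (irrInvSetoid (⊤ : Subgroup Γ) ⊤ e))
            + Nat.card (Quotient (wtSetoid p G e G))
          = G.index * Nat.card (Quotient (wtSetoid p (⊤ : Subgroup Γ) e ⊤))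
            + Nat.card (Quotient (irrInvSetoid G ⊥ e)) ∧
        List.TFAE [NavarroEq p G G e, NavarroEq p ⊤ ⊤ e, EquivBij p G e]) ∧
      (∀ E : Subgroup Γ, IsDefectGroup p ⊤ e E →
        ∀ (V : Subgroup Γ) [V.Normal], Ps.PSolv p ↥V → V ≤ G →
          (((∀ Q : Subgroup Γ, Q ≤ E → ¬ Q ≤ G → IsRadicalIn p (G ⊔ Q) Q →
                LocalCond p G E V Q) ∨
              ∀ N : Subgroup Γ, N ≤ E → Group.rank ↥(N.map (QuotientGroup.mk' V)) ≤ 2) →
            ∀ H : Subgroup Γ, G < H → NavarroEq p G H e) ∧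
          ((∀ Q : Subgroup Γ, Q ≤ E → IsRadicalIn p (G ⊔ Q) Q → LocalCond p G E V Q) →
            EquivBij p G e) ∧
          (Small p G E → EquivBij p G e)) ∧
      ((∀ N : Subgroup Γ, N ≤ G → ∀ b : MonoidAlgebra k Γ, IsBlock N b → NavarroEq p N N b) →
        EquivBij p G e)) ∧
    ((∀ (Γ : Type u) [Group Γ] [Finite Γ] (e : MonoidAlgebra k Γ), IsBlock ⊤ e →
        NavarroEq p ⊤ ⊤ e) ↔
      ∀ (Γ : Type u) [Group Γ] [Finite Γ] (G : Subgroup Γ) [G.Normal] (e : MonoidAlgebra k Γ),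
        InvBlock p G e → EquivBij p G e) := by
  refine ⟨fun Γ _ _ G _ e h => ⟨tfae_equivariant h, almost_all h,
    fun E hE V hV hVs hVG => ⟨fun hl H hGH => navarro_gt h hE hVs hVG hl H hGH,
      equiv_of_local h hE hVs hVG, equiv_of_small h hE⟩, fun h' => ?_⟩, ?_, ?_⟩
  · exact ((tfae_equivariant h).out 0 2).1 (fun H hGH => navarro_of_subgroups h h' H hGH)
  · intro h' Γ _ _ G _ e h
    refine ((tfae_equivariant h).out 0 2).1
      (fun H hGH => navarro_of_subgroups h ?_ H hGH)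
    intro N _ b hb
    exact navarro_transport hb (h' _ (dn _ b) (dn_isBlock hb))
  · intro h Γ _ _ e he
    have hΓ : IsPGroup p (Γ ⧸ (⊤ : Subgroup Γ)) := by
      intro x
      refine ⟨0, ?_⟩
      obtain ⟨y, rfl⟩ := QuotientGroup.mk_surjective x
      rw [← QuotientGroup.mk_pow, QuotientGroup.eq_one_iff]
      exact Subgroup.mem_top _
    have hinv : ∀ g x : Γ, e.coeff (g * x * g⁻¹) = e.coeff x :=
      fun g x => he.invBy g (Subgroup.mem_top g) x
    have hI : InvBlock p (⊤ : Subgroup Γ) e := ⟨hΓ, he, hinv⟩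
    have h1 := ((tfae_equivariant hI).out 0 2).2 (h Γ ⊤ e hI)
    exact h1 ⊤ le_top

end Pool.Agent.Results.MP_0c8ca5_al.EquivariantForm
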