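import Pool.Agent.Lib.Rfa.ThreeRel

/-!
Retractions of the free associative algebra of rank three which leave a free factor invariant, and
their triangular extensions of any rank.
-/

namespace Pool.Agent.Results.MP_b7cb8e_al.InvariantFactor

/-- Let `g` be a free generating family of `F`, indexed by `Fin 3 ⊕ X₁` with `X₁` well-ordered
(possibly empty: then `F` has rank three).  Let `π` be an idempotent endomorphism of `F` such that,
for `j = 1` or `j = 2`, the subalgebra generated by the first `j` of the three exceptional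
generators is mapped into itself; the subalgebra generated by the three exceptional generators is
mapped into itself; and each `g x`, `x ∈ X₁`, is mapped into the subalgebra generated by the
exceptional generators and the `g y`, `y ≤ x`.  Then the retract `π(F)` is free. -/
theorem result {k : Type*} [Field k] {F : Type*} [Ring F] [Algebra k F] {X₁ : Type*}
    [LinearOrder X₁] [WellFoundedLT X₁] (g : Fin 3 ⊕ X₁ → F)
    (hg : Function.Bijective (FreeAlgebra.lift k g)) (π : F →ₐ[k] F) (hπ : ∀ f, π (π f) = π f)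
    (j : ℕ) (hj₁ : 1 ≤ j) (hj₂ : j ≤ 2)
    (hj : ∀ i : Fin 3, (i : ℕ) < j → π (g (Sum.inl i)) ∈
      Algebra.adjoin k (g '' (Sum.inl '' {i : Fin 3 | (i : ℕ) < j})))
    (h₀ : ∀ i : Fin 3, π (g (Sum.inl i)) ∈ Algebra.adjoin k (g '' Set.range Sum.inl))
    (h₁ : ∀ x : X₁, π (g (Sum.inr x)) ∈
      Algebra.adjoin k (g '' (Set.range Sum.inl ∪ Sum.inr '' Set.Iic x))) :
    ∃ m ≤ 3, ∃ Y : Set X₁, Nonempty (π.range ≃ₐ[k] FreeAlgebra k (Fin m ⊕ Y)) := by
  obtain ⟨m, hm, b, Y, h1, h2⟩ := Rfa.threeF g hg.1 ((AlgHom.range_eq_top _).2 hg.2) π hπ j hj₁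
    hj₂ hj h₀ h₁
  refine ⟨m, hm, Y, ?_⟩
  rw [← h2]
  exact ⟨(AlgEquiv.ofInjective _ h1).symm⟩

end Pool.Agent.Results.MP_b7cb8e_al.InvariantFactor
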