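import Pool.Agent.Lib.LamSpec.Expo

/-!
# MP_d6cb56_nt: a new part of the spectrum of the exponent `λ_n`, for every `n`

For every `n ≥ 1` the spectrum of `λ_n` contains `[ρ_n, +∞]`, where
`ρ_n = (2 - n + √(n² + 4)) / (2n)` is the positive root `λ` of `(nλ + n - 1)(nλ - 1) = 1`;
`1/n < ρ_n ≤ (n + 1)/n²`.
-/

set_option autoImplicit false

namespace Pool.Agent.Results.MP_d6cb56_nt.LambdaSpectrum

/-- The integer points `(x_0, …, x_n)` with `x_0 ≠ 0` and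
`max_{1 ≤ j ≤ n} |x_0 ξ^j - x_j| ≤ |x_0|^{-l}`. -/
def Points (n : ℕ) (ξ l : ℝ) : Set (Fin (n + 1) → ℤ) :=
  {x | x 0 ≠ 0 ∧ ∀ j : Fin n, |(x 0 : ℝ) * ξ ^ ((j : ℕ) + 1) - x j.succ| ≤ |(x 0 : ℝ)| ^ (-l)}

/-- The exponent `λ_n(ξ)`: the supremum in `[-∞, +∞]` of the reals `l` for which there are infinitely
many integer points `(x_0, …, x_n)` with `x_0 ≠ 0` and
`max_{1 ≤ j ≤ n} |x_0 ξ^j - x_j| ≤ |x_0|^{-l}`. -/
noncomputable def lambda (n : ℕ) (ξ : ℝ) : EReal :=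
  sSup {l : EReal | ∃ r : ℝ, l = r ∧ (Points n ξ r).Infinite}

/-- The spectrum of `λ_n`: the set of its values at the real transcendental numbers. -/
def spectrum (n : ℕ) : Set EReal := {l | ∃ ξ : ℝ, Transcendental ℚ ξ ∧ lambda n ξ = l}

/-- The positive root `λ` of `(nλ + n - 1)(nλ - 1) = 1`. -/
noncomputable def rho (n : ℕ) : ℝ := (2 - n + √((n:ℝ) ^ 2 + 4)) / (2 * n)

lemma lambda_eq (n : ℕ) (ξ : ℝ) : lambda n ξ = Pool.Agent.LamSpec.lam n ξ := rfl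

lemma mem_spectrum {n : ℕ} (hn : 1 ≤ n) {l : ℝ} (hl : rho n ≤ l) : (l : EReal) ∈ spectrum n := by
  have hnR : (1:ℝ) ≤ n := by exact_mod_cast hn
  have hn0 : (0:ℝ) < n := by linarith
  have hs : √((n:ℝ) ^ 2 + 4) ^ 2 = (n:ℝ) ^ 2 + 4 := Real.sq_sqrt (by positivity)
  have hs0 : (n:ℝ) < √((n:ℝ) ^ 2 + 4) := by
    apply Real.lt_sqrt_of_sq_lt
    linarith
  have h1 : (2 - n + √((n:ℝ) ^ 2 + 4)) ≤ 2 * (n * l) := by
    unfold rho at hl
    rw [div_le_iff₀ (by positivity)] at hl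
    linarith
  set w : ℝ := n * l + n - 1 with hw
  have hnw : (n:ℝ) < w := by
    rw [hw]
    linarith
  have hcond : 1 ≤ w * (w - n) := by
    have h2 : √((n:ℝ) ^ 2 + 4) ≤ 2 * (n * l) + n - 2 := by linarith
    have h3 : √((n:ℝ) ^ 2 + 4) ^ 2 ≤ (2 * (n * l) + n - 2) ^ 2 :=
      pow_le_pow_left₀ (Real.sqrt_nonneg _) h2 2
    rw [hs] at h3
    rw [hw]
    nlinarith
  obtain ⟨S, hS⟩ := Pool.Agent.LamSpec.exists_sys (w := w) (by linarith)
  refine ⟨S.ξ, hS, ?_⟩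
  rw [lambda_eq, Pool.Agent.LamSpec.lam_eq S hn hnw hcond]
  congr 1
  rw [hw]
  field_simp
  ring

/-- **A new part of the spectrum of `λ_n`.** For every `n ≥ 1` the spectrum of `λ_n` contains
`[ρ_n, +∞]` with `ρ_n = (2 - n + √(n² + 4)) / (2n)`; in particular it contains `[(n+1)/n², +∞]`. -/
theorem result : ∀ n : ℕ, 1 ≤ n →
    Set.Ici (rho n : EReal) ⊆ spectrum n ∧ Set.Ici ((((n:ℝ) + 1) / (n:ℝ) ^ 2 : ℝ) : EReal) ⊆ spectrum n := by
  intro n hn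
  have hnR : (1:ℝ) ≤ n := by exact_mod_cast hn
  have hn0 : (0:ℝ) < n := by linarith
  have hmain : Set.Ici (rho n : EReal) ⊆ spectrum n := by
    intro l hl
    rw [Set.mem_Ici] at hl
    induction l using EReal.rec with
    | bot => exact absurd hl (not_le.2 (EReal.bot_lt_coe _))
    | coe l => exact mem_spectrum hn (EReal.coe_le_coe_iff.1 hl)
    | top =>
      have h := liouville_liouvilleNumber (m := 2) le_rfl
      refine ⟨liouvilleNumber ((2 : ℕ) : ℝ), ?_, ?_⟩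
      · intro halg
        exact transcendental_liouvilleNumber (m := 2) le_rfl
          ((IsFractionRing.isAlgebraic_iff ℤ ℚ ℝ).2 halg)
      · rw [lambda_eq]
        exact Pool.Agent.LamSpec.lam_liouville h hn
  refine ⟨hmain, fun l hl => hmain ?_⟩
  rw [Set.mem_Ici] at hl ⊢
  refine le_trans (EReal.coe_le_coe_iff.2 ?_) hl
  unfold rho
  rw [div_le_div_iff₀ (by positivity) (by positivity)]
  have h1 : √((n:ℝ) ^ 2 + 4) ≤ n + 2 / n := by
    apply Real.sqrt_le_iff.2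
    constructor
    · positivity
    · have : ((n:ℝ) + 2 / n) ^ 2 = (n:ℝ) ^ 2 + 4 + 4 / (n:ℝ) ^ 2 := by
        field_simp
        ring
      rw [this]
      have : 0 < 4 / (n:ℝ) ^ 2 := by positivity
      linarith
  have h2 : (2 - n + √((n:ℝ) ^ 2 + 4)) * (n:ℝ) ^ 2 ≤ (2 - n + (n + 2 / n)) * (n:ℝ) ^ 2 :=
    mul_le_mul_of_nonneg_right (by linarith) (by positivity)
  have h3 : (2 - (n:ℝ) + (n + 2 / n)) * (n:ℝ) ^ 2 = ((n:ℝ) + 1) * (2 * n) := by
    field_simp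
    ring
  linarith

end Pool.Agent.Results.MP_d6cb56_nt.LambdaSpectrum
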