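import Pool.Agent.Lib.Pa7c826m.MultiFinS

/-!
The threshold for approximately counting the independent sets of regular bipartite graphs with large
`k`-way expansion, or with fewer than `k` large eigenvalues, has order `log n` for every `k ≥ 3`.
-/

namespace Pool.Agent.Lib.Reserve.MultiwayExpansionA7c826

open Pool.Agent.Lib.Pa7c826 Pool.Agent.Lib.Pa7c826m

/-- `G` has `n` vertices and is `d`-regular for some `d`, and `k`-way expansion of `G` is at least
`C log₂ n`, or fewer than `k` eigenvalues of its adjacency matrix are larger than `d - C log₂ n`.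
The precision `t` is at most `n ^ K`. -/
def Above (k K : ℕ) (C : ℝ) (G : BGraph) (t : ℕ) : Prop :=
  t ≤ (G.a + G.b) ^ K ∧ ∃ d, RegularOf d G ∧
    (MultiExp k (C * Real.logb 2 (G.a + G.b : ℕ)) G ∨
      FewEig k (d - C * Real.logb 2 (G.a + G.b : ℕ)) G)

/-- `G` has `n` vertices and is `d`-regular for some `d` with `P n d`, its `k`-way expansion is at
least `log₂ (n / d) / 5`, and fewer than `k` eigenvalues of its adjacency matrix are larger than
`d - log₂ (n / d) / 7`. The precision `t` satisfies `t ^ e ≤ n`. -/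
def Below (k e : ℕ) (P : ℕ → ℕ → Prop) (G : BGraph) (t : ℕ) : Prop :=
  t ^ e ≤ G.a + G.b ∧ ∃ d : ℕ, RegularOf d G ∧ P (G.a + G.b) d ∧
    MultiExp k (Real.logb 2 (((G.a + G.b : ℕ) : ℝ) / d) / 5) G ∧
    FewEig k (d - Real.logb 2 (((G.a + G.b : ℕ) : ℝ) / d) / 7) G

/-- (1) For all `k` and `K` there is `C` and a deterministic algorithm with relative error
`n ^ (-K)` on all regular bipartite graphs with `k`-way expansion at least `C log₂ n`, or with fewer
than `k` eigenvalues larger than `d - C log₂ n`.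
(2) If `k ≥ 3` and `0 < p₁ / q₁ < p₂ / q₂ < 1`, a randomised algorithm with relative error
`n ^ (-1 / e)` for the graphs with `k`-way expansion at least `log₂ (n / d) / 5`, fewer than `k`
eigenvalues larger than `d - log₂ (n / d) / 7` and `n ^ (p₁ / q₁) ≤ d ≤ n ^ (p₂ / q₂)` exists iff
there is an FPRAS for all bipartite graphs.
(3) If `k ≥ 3`, such an algorithm for the graphs with `(log₂ n) ^ 3 ≤ d ≤ 5 (log₂ n) ^ 3` gives
an FPRAS for the bipartite graphs with maximum degree `Δ`, for every `Δ`. -/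
theorem result :
    (∀ k K : ℕ, ∃ C : ℝ, 0 < C ∧ HasApx (Above k K C)) ∧
    (∀ k e p₁ q₁ p₂ q₂ : ℕ, 3 ≤ k → 0 < p₁ → p₁ * q₂ < p₂ * q₁ → p₂ < q₂ →
      (HasRApx (Below k e fun n d => n ^ p₁ ≤ d ^ q₁ ∧ d ^ q₂ ≤ n ^ p₂) ↔
        HasFPRAS (fun _ => True))) ∧
    ∀ k e Δ : ℕ, 3 ≤ k →
      HasRApx (Below k e fun n d => Real.logb 2 n ^ 3 ≤ d ∧ d ≤ 5 * Real.logb 2 n ^ 3) →
        HasFPRAS (fun G => (∀ i, G.rowDeg i ≤ Δ) ∧ ∀ j, G.colDeg j ≤ Δ) := by
  obtain ⟨h1, h2, h3⟩ := multiway_spectral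
  refine ⟨h1, fun k e p₁ q₁ p₂ q₂ hk hp h12 hpq => ?_, fun k e Δ hk h => h3 k e Δ hk ?_⟩
  · rw [← h2 k e p₁ q₁ p₂ q₂ hk hp h12 hpq]
    constructor
    · refine HasRApx.mono fun G t => ?_
      rintro ⟨ht, d, hd, h5, h6, h7, h8⟩
      exact ⟨ht, d, hd, ⟨h5, h6⟩, h7, h8⟩
    · refine HasRApx.mono fun G t => ?_
      rintro ⟨ht, d, hd, ⟨h5, h6⟩, h7, h8⟩
      exact ⟨ht, d, hd, h5, h6, h7, h8⟩
  · refine HasRApx.mono (fun G t => ?_) h
    rintro ⟨ht, d, hd, h5, h6, h7, h8⟩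
    exact ⟨ht, d, hd, ⟨h5, h6⟩, h7, h8⟩

end Pool.Agent.Lib.Reserve.MultiwayExpansionA7c826
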