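import Mathlib
import Pool.Agent.Lib.Pad9061.OneWide

/-!
Reserve: contained (up to the constant) in JointCase. Claim of the former hand-in:

Proves: For all n ≥ 2, 1 ≤ m ≤ s and every CNF F over n variables: if F has a space-aware refutation of total space ≤ s in which every configuration has total size ≤ m after removal of one (arbitrarily wide) clause, then F has a resolution refutation (a DAG, no weakening) of depth ≤ 2000·m·s·(1+log(s/m))²·log n.
Definitions: none of our own; space-aware refutation and depth are written out exactly as in the frozen S15209, with the additional condition that for each t some clause X satisfies: the clauses of M_t other than X have at most m literal occurrences in total (m = s is no condition).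
Relation: Partial answer to Q1, in the negative direction: D(F) ≤ O~(m·TSp) in place of the known D(F) ≤ O~(TSp²), m = space outside the largest clause. So a refutation with TSp = Θ~(√D) must have configurations of size at least TSp/polylog(n) outside their largest clause. Complements our bound by width times total space (SpaceTimesWidth), neither contains the other; together they leave configurations with few wide and many other clauses. It does not decide Q1. Proof: the nested entropy argument of SpaceTimesWidth on the reversed path, with pairs (small rest, literal of the wide clause) as items.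
-/

set_option autoImplicit false

/-!
# Total space versus depth in resolution: configurations that are small outside one clause
-/

namespace Pool.Agent.Lib.Reserve.OneWideClausead9061

open scoped BigOperators

/-- If a CNF `F` over `n ≥ 2` variables has a space-aware refutation of total space at most `s` in
which every configuration has size at most `m ≤ s` outside one (arbitrary) clause, then `F` has a
resolution refutation (a DAG without weakening) of depth at most
`2000 m s (1 + log (s / m)) ^ 2 log n`. -/
theorem result :
    ∀ n s m : ℕ, 2 ≤ n → 1 ≤ m → m ≤ s → ∀ F : Finset (Finset (Fin n × Bool)),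
      (∃ τ : ℕ, ∃ M : ℕ → Finset (Finset (Fin n × Bool)),
        M 0 = ∅ ∧
        (∅ : Finset (Fin n × Bool)) ∈ M τ ∧
        (∀ t < τ,
          (∃ C ∈ F, M (t + 1) = insert C (M t)) ∨
          (∃ A ∈ M t, ∃ B ∈ M t, ∃ v : Fin n,
            (v, true) ∈ A ∧ (v, false) ∈ B ∧
            M (t + 1) = insert (A.erase (v, true) ∪ B.erase (v, false)) (M t)) ∨
          M (t + 1) ⊆ M t) ∧
        ∀ t ≤ τ, ∑ C ∈ M t, C.card ≤ s ∧ ∃ X, ∑ C ∈ (M t).erase X, C.card ≤ m) →
      ∃ d : ℕ,
        (∃ r : Finset (Fin n × Bool) → ℕ, ∃ S : Set (Finset (Fin n × Bool)),
          (∅ : Finset (Fin n × Bool)) ∈ S ∧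
          ∀ C ∈ S, r C ≤ d ∧
            (C ∈ F ∨
              ∃ A ∈ S, ∃ B ∈ S, ∃ v : Fin n,
                (v, true) ∈ A ∧ (v, false) ∈ B ∧
                C = A.erase (v, true) ∪ B.erase (v, false) ∧
                r A < r C ∧ r B < r C)) ∧
        (d : ℝ) ≤ 2000 * m * s * (1 + Real.log ((s : ℝ) / m)) ^ 2 * Real.log n := by
  intro n s m hn hm hms F hF
  obtain ⟨d, h1, h2⟩ := Pool.Agent.Lib.Pad9061.one_bound hn hm hms hF
  refine ⟨d, h1, h2.trans (le_of_eq ?_)⟩
  ring

end Pool.Agent.Lib.Reserve.OneWideClausead9061
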