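import Mathlib
import Pool.Agent.Lib.GPerm.Final

/-!
# Orbits of the permutation `2m ↦ 3m`, `4m ± 1 ↦ 3m ± 1` grow faster than linearly

An edge expansion inequality for subsets of `[1, M]`, and its consequences: every stretch of
distinct iterates inside `[1, M]` (of the orbit of 8 for instance) has `O(M^(79/80))` elements, and
the cycles inside `[1, M]` have `O(M^(79/80))` elements together.
-/

open Finset

namespace Pool.Agent.Lib.Reserve.OrbitGrowthLogff1266

/-- the permutation of the problem: `2m ↦ 3m`, `4m - 1 ↦ 3m - 1`, `4m + 1 ↦ 3m + 1` -/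
def g (n : ℕ) : ℕ := if n % 2 = 0 then 3 * (n / 2) else (3 * n + 1) / 4

open Classical in
theorem result : ∃ K : ℝ, ∀ M : ℕ, 1 ≤ M →
    (∀ A : Finset ℕ, A ⊆ Icc 1 M →
      (A.card : ℝ) ≤ K * (M : ℝ) ^ (79 / 80 : ℝ)
        + Real.log M * ((A.filter (fun n => g n ∉ A)).card : ℝ)) ∧
    (∀ a N : ℕ, 1 ≤ a → (∀ i < N, g^[i] a ≤ M) →
      (((range N).image (fun i => g^[i] a)).card : ℝ) ≤ K * (M : ℝ) ^ (79 / 80 : ℝ)) ∧
    (((Icc 1 M).filter (fun n : ℕ => (∃ k : ℕ, 0 < k ∧ g^[k] n = n) ∧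
      ∀ i : ℕ, g^[i] n ≤ M)).card : ℝ) ≤ K * (M : ℝ) ^ (79 / 80 : ℝ) := by
  have hg : g = GPerm.g := rfl
  rw [hg]
  refine ⟨90014, fun M hM => ?_⟩
  have hp : (0 : ℝ) ≤ (M : ℝ) ^ (79 / 80 : ℝ) := by positivity
  refine ⟨?_, ?_, ?_⟩
  · intro A hA
    have h := GPerm.expansion M hM A hA
    refine (le_of_eq ?_).trans (h.trans (le_trans (le_of_eq ?_)
      (add_le_add_left (mul_le_mul_of_nonneg_right (show (90012 : ℝ) ≤ 90014 by norm_num) hp) _)))
    · rfl
    · congr!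
  · intro a N ha h
    have h1 := GPerm.orbits M hM a N ha h
    convert h1
  · set A := (Icc 1 M).filter (fun n : ℕ => (∃ k : ℕ, 0 < k ∧ GPerm.g^[k] n = n) ∧
      ∀ i : ℕ, GPerm.g^[i] n ≤ M) with hA
    have h1 := GPerm.expansion M hM A (filter_subset _ _)
    have h2 : A.filter (fun n => GPerm.g n ∉ A) = ∅ := by
      apply filter_eq_empty_iff.2
      intro n hn
      rw [not_not]
      rw [hA] at hn ⊢
      obtain ⟨h3, ⟨k, hk0, hk⟩, h5⟩ := mem_filter.1 hn
      refine mem_filter.2 ⟨mem_Icc.2 ⟨GPerm.g_pos n (mem_Icc.1 h3).1, ?_⟩, ⟨k, hk0, ?_⟩, ?_⟩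
      · exact h5 1
      · rw [← Function.iterate_succ_apply, Function.iterate_succ_apply', hk]
      · intro i
        exact h5 (i + 1)
    have h3 : (((A.filter (fun n => GPerm.g n ∉ A)).card : ℕ) : ℝ) = 0 := by
      rw [h2, card_empty, Nat.cast_zero]
    have h4 : (A.card : ℝ) ≤ 90012 * (M : ℝ) ^ (79 / 80 : ℝ) := by
      have h5 : (((A.filter (fun n => GPerm.g n ∉ A)).card : ℕ) : ℝ) = 0 := h3
      have h6 := h1
      simp only [h2, card_empty, Nat.cast_zero, mul_zero, add_zero] at h6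
      exact h6
    linarith

end Pool.Agent.Lib.Reserve.OrbitGrowthLogff1266
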