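import Pool.Agent.Lib.P9f173dA.Compact

/-!
# MP_9f173d_gt : groups containing a polycyclic subgroup of full Hirsch length

Let `G` be a group with a finite free resolution of length `n` of the trivial `ℤ[G]`-module `ℤ`
(for instance `G = π₁(M)` for a finite aspherical CW complex `M` of dimension `n`, with the
cellular chain complex of the universal cover of `M`). If `G` contains a poly-infinite-cyclic
subgroup of Hirsch length `n`, then the homology of `M` with coefficients in the reduced group
C*-algebra of `G` is non-zero in some degree.

* `FiniteFreeResolution G n` : such a resolution, given by matrices over `ℤ[G]`;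
* `HomologyVanishes F φ i` : the `i`-th homology of the complex `B ⊗ F` vanishes, `B` being a
  ring under `φ : ℤ[G] → B`;
* `toCRed G : ℤ[G] → C*_r(G)` : the inclusion, the reduced group C*-algebra `CRed G` being the
  norm closure of the ring generated by the operators `c • lam g` (that is of the image of
  `ℂ[G]`) in the bounded operators `Ops G` on `ℓ²(G)`;
* `IsPolyZ t` : each `t i` normalises the subgroup generated by the `t j`, `j < i`, and
  no non-zero power of `t i` lies in that subgroup.

Idea of the proof: if `A` is the polycyclic subgroup, then iterating the exact sequences of
coinvariants along the cyclic factors gives, for some character `χ : A → {±1}`, a chain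
`y : F n` whose boundary vanishes in the `χ`-twisted coinvariants of `F (n - 1)` while `y` itself
is non-zero in the `χ`-twisted coinvariants of `F n`. If all homology with coefficients in
`C*_r(G)` vanished, the top differential would have a right inverse matrix over `C*_r(G)`, and
testing on `χ`-Følner vectors of `A` in `ℓ²(G)` would give `y = 0` in the coinvariants.
-/

set_option autoImplicit false

namespace Pool.Agent.Results.MP_9f173d_gt.PolycyclicSubgroup

open Pool.Agent.Lib.P9f173dA

universe u

theorem result (G : Type u) [Group G] (n : ℕ) (F : FiniteFreeResolution G n)
    (t : Fin n → G) (ht : IsPolyZ t) :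
    ∃ i : ℕ, ¬ HomologyVanishes F (toCRed G) i :=
  main_red F ht

end Pool.Agent.Results.MP_9f173d_gt.PolycyclicSubgroup
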