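import Mathlib
import Pool.Agent.Lib.Pabc1.RMain

open Filter

namespace Pool.Agent.Results.MP_2ec8a3_nt.PowerSaving

/-- The radical of `n`: the product of the distinct primes dividing `n`. -/
def rad (n : ℕ) : ℕ := ∏ p ∈ n.primeFactors, p

/-- `(a, b, c)` is an abc-triple: pairwise coprime positive integers with `a + b = c`. -/
def AbcTriple (a b c : ℕ) : Prop :=
  0 < a ∧ 0 < b ∧ 0 < c ∧ a.Coprime b ∧ a.Coprime c ∧ b.Coprime c ∧ a + b = c

/-- The abc-triples `(a, b, c)` with `rad (abc) ≤ Y` and `log c ≤ Y ^ θ`. -/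
def triples (θ : ℝ) (Y : ℕ) : Set (ℕ × ℕ × ℕ) :=
  {t | AbcTriple t.1 t.2.1 t.2.2 ∧ rad (t.1 * t.2.1 * t.2.2) ≤ Y ∧
    Real.log t.2.2 ≤ (Y : ℝ) ^ θ}

open Pool.Agent.Lib.Pabc1 Pool.Agent.Lib.Pabc2

/-- The condition on pairs. -/
def LP (θ : ℝ) (Y : ℕ) (t : ℕ × ℕ) : Prop := rd t ≤ Y ∧ ht t ≤ (Y : ℝ) ^ θ

theorem LP_swap {θ : ℝ} {Y : ℕ} {t : ℕ × ℕ} (h : LP θ Y t) : LP θ Y t.swap := by
  have e1 : N t.swap = N t := by
    unfold N
    simp only [Prod.fst_swap, Prod.snd_swap]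
    ring
  have e2 : ht t.swap = ht t := by
    unfold ht
    simp only [Prod.fst_swap, Prod.snd_swap]
    rw [add_comm]
  unfold LP rd at *
  rw [e1, e2]
  exact h

/-- For every `θ` in `[0, 1)` and `η > 0`, for all sufficiently large `Y` the number of
abc-triples with `rad (abc) ≤ Y` and `log c ≤ Y ^ θ` is at most
`Y ^ (1 - min (1/8) ((1 - θ)/6) + η)`. -/
theorem result (θ η : ℝ) (hθ0 : 0 ≤ θ) (hθ1 : θ < 1) (hη : 0 < η) :
    ∀ᶠ Y : ℕ in atTop, (triples θ Y).Finite ∧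
      ((triples θ Y).ncard : ℝ) ≤ (Y : ℝ) ^ (1 - min (1 / 8) ((1 - θ) / 6) + η) := by
  classical
  filter_upwards [main_all θ η hθ0 hθ1 hη] with Y hY
  set B : ℝ := (Y : ℝ) ^ (1 - min (1 / 8) ((1 - θ) / 6) + η) with hB
  have key0 : ∀ T : Finset (ℕ × ℕ), (∀ t ∈ T, IsT t ∧ LP θ Y t) → 2 * (T.card : ℝ) ≤ B := by
    intro T hT
    apply hY T
    intro t ht'
    obtain ⟨h1, h2, h3⟩ := hT t ht'
    exact ⟨h1, h2, h3⟩
  have key : ∀ T : Finset (ℕ × ℕ), (∀ t ∈ T, (0 < t.1 ∧ 0 < t.2 ∧ Nat.Coprime t.1 t.2) ∧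
      LP θ Y t) → (T.card : ℝ) ≤ B := by
    intro T hT
    have h1 := key0 (T.filter (fun t => t.1 ≤ t.2)) (by
      intro t ht'
      rw [Finset.mem_filter] at ht'
      obtain ⟨⟨a1, a2, a3⟩, a4⟩ := hT t ht'.1
      exact ⟨⟨a1, ht'.2, a3⟩, a4⟩)
    have h3 := key0 ((T.filter (fun t => ¬ t.1 ≤ t.2)).image Prod.swap) (by
      intro t ht'
      rw [Finset.mem_image] at ht'
      obtain ⟨s, hs, rfl⟩ := ht'
      rw [Finset.mem_filter] at hs
      obtain ⟨⟨a1, a2, a3⟩, a4⟩ := hT s hs.1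
      refine ⟨⟨a2, ?_, a3.symm⟩, LP_swap a4⟩
      simp only [Prod.fst_swap, Prod.snd_swap]
      omega)
    rw [Finset.card_image_of_injective _ Prod.swap_injective] at h3
    have hcard : (T.card : ℝ) = (T.filter (fun t => t.1 ≤ t.2)).card +
        (T.filter (fun t => ¬ t.1 ≤ t.2)).card := by
      exact_mod_cast (Finset.card_filter_add_card_filter_not (s := T) (fun t => t.1 ≤ t.2)).symm
    linarith
  set PS : Set (ℕ × ℕ) := {t | (0 < t.1 ∧ 0 < t.2 ∧ Nat.Coprime t.1 t.2) ∧ LP θ Y t} with hPS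
  have hfin : PS.Finite := finite_of_card_le PS _ (fun T hT => key T (fun t ht' => hT t ht'))
  have hcardPS : (PS.ncard : ℝ) ≤ B := by
    rw [Set.ncard_eq_toFinset_card _ hfin]
    apply key
    intro t ht'
    exact (Set.Finite.mem_toFinset hfin).mp ht'
  set f : ℕ × ℕ × ℕ → ℕ × ℕ := fun t => (t.1, t.2.1) with hf
  have hinj : Set.InjOn f (triples θ Y) := by
    rintro ⟨a, b, c⟩ ht ⟨a', b', c'⟩ ht' heq
    simp only [hf, Prod.mk.injEq] at heq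
    obtain ⟨rfl, rfl⟩ := heq
    have h1 := ht.1.2.2.2.2.2.2
    have h2 := ht'.1.2.2.2.2.2.2
    simp only at h1 h2
    rw [← h1, ← h2]
  have hmaps : f '' triples θ Y ⊆ PS := by
    rintro _ ⟨⟨a, b, c⟩, ht, rfl⟩
    obtain ⟨⟨h1, h2, h3c, h3, _, _, h4⟩, h5, h6⟩ := ht
    simp only at h1 h2 h3 h3c h4 h5 h6
    subst h4
    refine ⟨⟨h1, h2, h3⟩, h5, ?_⟩
    simp only [hf]
    unfold ht
    push_cast at h6
    exact h6
  have hfin' : (f '' triples θ Y).Finite := hfin.subset hmaps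
  refine ⟨Set.Finite.of_finite_image hfin' hinj, ?_⟩
  rw [← hinj.ncard_image]
  refine le_trans ?_ hcardPS
  exact_mod_cast Set.ncard_le_ncard hmaps hfin

end Pool.Agent.Results.MP_2ec8a3_nt.PowerSaving
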