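import Mathlib
import Pool.Agent.Lib.Pad9061.Quad

/-!
Reserve: contained (up to the constant) in JointCase. Claim of the former hand-in:

Proves: For all n ≥ 2, 1 ≤ w ≤ s, every CNF F over n variables and every set X of at most n^w clauses: if F has a space-aware refutation of total space ≤ s with Σ_{C∈M∖X}|C|² ≤ w·s for every configuration M (|C| = width), then F has a resolution refutation (a DAG, no weakening) of depth ≤ 800·w·s·(1+log(s/w))²·log n.
Definitions: none of our own; space-aware refutation and depth are written out exactly as in the frozen S15209, with the condition on squares added.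
Relation: Partial answer to Q1, negative direction. Known: D ≤ O~(TSp²), D ≤ TSp·log(length) (Razborov 2018, Papamakarios-Razborov). Special cases: (a) w = 1, s = q, X = ∅: if Σ_{C∈M}|C|² ≤ q always, then D ≤ O~(q): squares of widths, not the square of their sum; (b) all widths ≤ w: D ≤ O~(w·TSp); (c) L different clauses occur: D ≤ O~(TSp·log L): log of the number of different clauses instead of log of the length, which can be exponential in L. So a refutation with TSp = Θ~(√D) contains more than exp(TSp/polylog(n)) different clauses of width ≥ TSp/polylog(n). Q1 stays open for few (at a time) wide clauses taken from so large a set. Proof: nested deferral of the evaluation of configurations, driven by an entropy potential, bounded by the mean length of a code for the clauses (Kraft's inequality).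
-/

set_option autoImplicit false

/-!
# Total space versus depth in resolution: the squares of the widths and the number of different
clauses
-/

namespace Pool.Agent.Lib.Reserve.QuadraticSpacead9061

open scoped BigOperators

/-- If a CNF `F` over `n ≥ 2` variables has a space-aware refutation of total space at most `s`, in
every configuration of which the squares of the widths of the clauses outside a fixed set `X` of at
most `n ^ w` clauses add up to at most `w s`, then `F` has a resolution refutation (a DAG without
weakening) of depth at most `800 w s (1 + log (s / w)) ^ 2 log n`. The hypothesis on the squares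
holds if all clauses of the refutation have width at most `w`, and also if at most `n ^ w` different
clauses occur in it. -/
theorem result :
    ∀ n s w : ℕ, 2 ≤ n → 1 ≤ w → w ≤ s → ∀ F : Finset (Finset (Fin n × Bool)),
      ∀ X : Finset (Finset (Fin n × Bool)), X.card ≤ n ^ w →
      (∃ τ : ℕ, ∃ M : ℕ → Finset (Finset (Fin n × Bool)),
        M 0 = ∅ ∧
        (∅ : Finset (Fin n × Bool)) ∈ M τ ∧
        (∀ t < τ,
          (∃ C ∈ F, M (t + 1) = insert C (M t)) ∨
          (∃ A ∈ M t, ∃ B ∈ M t, ∃ v : Fin n,
            (v, true) ∈ A ∧ (v, false) ∈ B ∧
            M (t + 1) = insert (A.erase (v, true) ∪ B.erase (v, false)) (M t)) ∨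
          M (t + 1) ⊆ M t) ∧
        ∀ t ≤ τ, ∑ C ∈ M t, C.card ≤ s ∧ ∑ C ∈ M t \ X, C.card ^ 2 ≤ w * s) →
      ∃ d : ℕ,
        (∃ r : Finset (Fin n × Bool) → ℕ, ∃ S : Set (Finset (Fin n × Bool)),
          (∅ : Finset (Fin n × Bool)) ∈ S ∧
          ∀ C ∈ S, r C ≤ d ∧
            (C ∈ F ∨
              ∃ A ∈ S, ∃ B ∈ S, ∃ v : Fin n,
                (v, true) ∈ A ∧ (v, false) ∈ B ∧
                C = A.erase (v, true) ∪ B.erase (v, false) ∧
                r A < r C ∧ r B < r C)) ∧
        (d : ℝ) ≤ 800 * w * s * (1 + Real.log ((s : ℝ) / w)) ^ 2 * Real.log n := by
  intro n s w hn hw hws F X hX hF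
  obtain ⟨d, h1, h2⟩ := Pool.Agent.Lib.Pad9061.quad_bound hn hw hws hX hF
  exact ⟨d, h1, h2.trans (le_of_eq (by ring))⟩

end Pool.Agent.Lib.Reserve.QuadraticSpacead9061
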