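import Mathlib
import Pool.Agent.Lib.Pabc10.Final
import Pool.Agent.Lib.Pabc8.Lower
import Pool.Agent.Lib.Pabc1.SLower

open Filter

namespace Pool.Agent.Results.MP_2ec8a3_nt.SharpCount

/-- The radical of `n`: the product of the distinct primes dividing `n`. -/
def rad (n : ℕ) : ℕ := ∏ p ∈ n.primeFactors, p

/-- `(a, b, c)` is an abc-triple: pairwise coprime positive integers with `a + b = c`. -/
def AbcTriple (a b c : ℕ) : Prop :=
  0 < a ∧ 0 < b ∧ 0 < c ∧ a.Coprime b ∧ a.Coprime c ∧ b.Coprime c ∧ a + b = c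

/-- All abc-triples `(a, b, c)` with `rad (abc) ≤ Y`. -/
def triples (Y : ℕ) : Set (ℕ × ℕ × ℕ) :=
  {t | AbcTriple t.1 t.2.1 t.2.2 ∧ rad (t.1 * t.2.1 * t.2.2) ≤ Y}

/-- The abc-triples `(a, b, c)` with `rad (abc) ≤ Y` such that at least one of
`rad a`, `rad b`, `rad c` is at most `Y ^ h`. -/
def triplesWith (h : ℝ) (Y : ℕ) : Set (ℕ × ℕ × ℕ) :=
  {t | t ∈ triples Y ∧ ((rad t.1 : ℝ) ≤ (Y : ℝ) ^ h ∨ (rad t.2.1 : ℝ) ≤ (Y : ℝ) ^ h ∨
      (rad t.2.2 : ℝ) ≤ (Y : ℝ) ^ h)}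

open Pool.Agent.Lib.Pabc1 Pool.Agent.Lib.Pabc2 Pool.Agent.Lib.Pabc8 Pool.Agent.Lib.Pabc10

theorem rad_le {n : ℕ} (hn : 0 < n) : rad n ≤ n :=
  Nat.le_of_dvd hn (Nat.prod_primeFactors_dvd n)

theorem Wt_rad (n : ℕ) : Wt 1 n = rad n := by
  rw [Wt_eq, one_pow, mul_one]
  rfl

/-- Upper bound and finiteness. -/
theorem upper (h ε : ℝ) (hε : 0 < ε) : ∀ᶠ Y : ℕ in atTop, (triplesWith h Y).Finite ∧
    ((triplesWith h Y).ncard : ℝ) ≤ (Y : ℝ) ^ ((1 + h) / 2 + ε) := by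
  filter_upwards [main_all_sharp h ε hε, ht_le_cube] with Y hY hcube
  exact transferP (fun t => ∃ s : Fin 3, Wt 1 (comp t s) ≤ (Y : ℝ) ^ h) (by
    rintro ⟨a, b⟩ ⟨s, hs⟩
    have e0 : ∀ x y : ℕ, comp (x, y) 0 = x := fun x y => comp_zero (x, y)
    have e1 : ∀ x y : ℕ, comp (x, y) 1 = y := fun x y => comp_one (x, y)
    have e2 : ∀ x y : ℕ, comp (x, y) 2 = x + y := fun x y => comp_two (x, y)
    have hs' : s = 0 ∨ s = 1 ∨ s = 2 := by omega
    rcases hs' with rfl | rfl | rfl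
    · rw [e0] at hs
      exact ⟨1, by rw [Prod.swap_prod_mk, e1]; exact hs⟩
    · rw [e1] at hs
      exact ⟨0, by rw [Prod.swap_prod_mk, e0]; exact hs⟩
    · rw [e2] at hs
      exact ⟨2, by rw [Prod.swap_prod_mk, e2, add_comm]; exact hs⟩) Y ((Y : ℝ) ^ (3 : ℝ))
    ((Y : ℝ) ^ ((1 + h) / 2 + ε)) (by
    intro T hT
    apply hY T
    intro t ht'
    exact ⟨(hT t ht').1, (hT t ht').2.1, (hT t ht').2.2.2⟩)
    (triplesWith h Y) (by
    rintro ⟨a, b, c⟩ ⟨⟨⟨h1, h2, h0, h3, _, _, h4⟩, h5⟩, h7⟩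
    simp only at h1 h2 h0 h3 h4 h5 h7
    refine ⟨h1, h2, h3, h4, h5, ?_, ?_⟩
    · simp only
      rcases le_total a b with hab | hab
      · have hI : IsT (a, b) := ⟨h1, hab, h3⟩
        have hr : rd (a, b) ≤ Y := by
          unfold rd N
          simp only
          rw [h4]
          exact h5
        have := hcube (a, b) hI hr
        unfold ht at this
        simp only at this
        rw [← h4]
        push_cast
        exact this
      · have hI : IsT (b, a) := ⟨h2, hab, h3.symm⟩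
        have hr : rd (b, a) ≤ Y := by
          unfold rd N
          simp only
          rw [mul_comm b a, add_comm b a, h4]
          exact h5
        have := hcube (b, a) hI hr
        unfold ht at this
        simp only at this
        rw [← h4]
        push_cast
        rw [add_comm]
        exact this
    · rcases h7 with h7 | h7 | h7
      · exact ⟨0, by rw [comp_zero, Wt_rad]; exact h7⟩
      · exact ⟨1, by rw [comp_one, Wt_rad]; exact h7⟩
      · exact ⟨2, by rw [comp_two, Wt_rad]; simp only; rw [h4]; exact h7⟩)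

/-- For `h = 1/3` the condition on the members is void. -/
theorem triplesWith_third (Y : ℕ) (hY : 1 ≤ Y) : triplesWith (1 / 3) Y = triples Y := by
  ext ⟨a, b, c⟩
  refine ⟨fun h => h.1, fun h => ⟨h, ?_⟩⟩
  obtain ⟨⟨h1, h2, h0, h3, _, _, h4⟩, h5⟩ := h
  simp only at h1 h2 h0 h3 h4 h5
  simp only
  subst h4
  rcases le_total a b with hab | hab
  · have hI : IsT (a, b) := ⟨h1, hab, h3⟩
    have hr : rd (a, b) ≤ Y := h5
    obtain ⟨s, hs⟩ := exists_small_member hI hY hr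
    have hs' : s = 0 ∨ s = 1 ∨ s = 2 := by omega
    rcases hs' with rfl | rfl | rfl
    · rw [comp_zero, Wt_rad] at hs
      exact Or.inl hs
    · rw [comp_one, Wt_rad] at hs
      exact Or.inr (Or.inl hs)
    · rw [comp_two, Wt_rad] at hs
      exact Or.inr (Or.inr hs)
  · have hI : IsT (b, a) := ⟨h2, hab, h3.symm⟩
    have hr : rd (b, a) ≤ Y := by
      unfold rd N
      simp only
      rw [mul_comm b a, add_comm b a]
      exact h5
    obtain ⟨s, hs⟩ := exists_small_member hI hY hr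
    have hs' : s = 0 ∨ s = 1 ∨ s = 2 := by omega
    rcases hs' with rfl | rfl | rfl
    · rw [comp_zero, Wt_rad] at hs
      exact Or.inr (Or.inl hs)
    · rw [comp_one, Wt_rad] at hs
      exact Or.inl hs
    · rw [comp_two, Wt_rad] at hs
      simp only at hs
      rw [add_comm] at hs
      exact Or.inr (Or.inr hs)

/-- Lower bound for all triples. -/
theorem lower_all (Y : ℕ) (hY : 13824 ≤ Y) (hfin : (triples Y).Finite) :
    1 / 4 * (Y : ℝ) ^ (2 / 3 : ℝ) ≤ (triples Y).ncard := by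
  classical
  have hY0 : (0 : ℝ) < Y := by
    have : 0 < Y := by omega
    exact_mod_cast this
  set y : ℝ := (Y : ℝ) ^ (1 / 3 : ℝ) with hy
  have hy0 : 0 < y := Real.rpow_pos_of_pos hY0 _
  have hy3 : y ^ 3 = Y := by
    rw [hy, ← Real.rpow_natCast, ← Real.rpow_mul hY0.le]
    norm_num
  have hy2 : y ^ 2 = (Y : ℝ) ^ (2 / 3 : ℝ) := by
    rw [hy, ← Real.rpow_natCast, ← Real.rpow_mul hY0.le]
    norm_num
  have hy24 : 24 ≤ y := by
    have h1 : (24 : ℝ) ^ 3 ≤ y ^ 3 := by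
      rw [hy3]
      have : ((13824 : ℕ) : ℝ) ≤ Y := by exact_mod_cast hY
      push_cast at this
      linarith
    exact le_of_pow_le_pow_left₀ (by norm_num) hy0.le h1
  set m : ℕ := ⌊3 / 4 * y⌋₊ with hm
  have hm1 : (m : ℝ) ≤ 3 / 4 * y := Nat.floor_le (by positivity)
  have hm2 : 3 / 4 * y < m + 1 := Nat.lt_floor_add_one _
  have hm0 : (0 : ℝ) ≤ m := Nat.cast_nonneg m
  have hm3 : 2 * (m : ℝ) ^ 3 ≤ Y := by
    rw [← hy3]
    have : (m : ℝ) ^ 3 ≤ (3 / 4 * y) ^ 3 := pow_le_pow_left₀ hm0 hm1 3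
    have h3 : 0 < y ^ 3 := by positivity
    nlinarith
  have hm3' : 2 * m ^ 3 ≤ Y := by exact_mod_cast hm3
  set f : ℕ × ℕ → ℕ × ℕ × ℕ := fun t => (t.1, t.2, t.1 + t.2) with hf
  have hinj : Function.Injective f := by
    rintro ⟨a, b⟩ ⟨a', b'⟩ h
    simp only [hf, Prod.mk.injEq] at h
    rw [h.1, h.2.1]
  have hsub : ((cop m).image f : Set (ℕ × ℕ × ℕ)) ⊆ triples Y := by
    rintro ⟨a, b, c⟩ h
    rw [Finset.mem_coe, Finset.mem_image] at h
    obtain ⟨⟨a', b'⟩, h1, h2⟩ := h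
    simp only [hf, Prod.mk.injEq] at h2
    obtain ⟨rfl, rfl, rfl⟩ := h2
    unfold cop at h1
    rw [Finset.mem_filter, Finset.mem_product, Finset.mem_Icc, Finset.mem_Icc] at h1
    obtain ⟨⟨⟨ha1, ha2⟩, ⟨hb1, hb2⟩⟩, hc⟩ := h1
    simp only at ha1 ha2 hb1 hb2 hc
    have hab : a' * b' * (a' + b') ≤ Y := by
      calc a' * b' * (a' + b') ≤ m * m * (m + m) := by gcongr
        _ = 2 * m ^ 3 := by ring
        _ ≤ Y := hm3'
    have hpos : 0 < a' * b' * (a' + b') := by positivity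
    refine ⟨⟨ha1, hb1, by simp only; omega, hc, ?_, ?_, rfl⟩, ?_⟩
    · simp only
      exact (Nat.coprime_self_add_right).mpr hc
    · simp only
      exact (Nat.coprime_add_self_right).mpr hc.symm
    · simp only
      exact (rad_le hpos).trans hab
  have hcard : (cop m).card ≤ (triples Y).ncard := by
    have h1 := Set.ncard_le_ncard hsub hfin
    rw [Set.ncard_coe_finset, Finset.card_image_of_injective _ hinj] at h1
    exact h1
  have h2 := cop_card m
  have h3 : ((cop m).card : ℝ) ≤ (triples Y).ncard := by exact_mod_cast hcard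
  rw [← hy2]
  nlinarith

/-- Lower bound for the triples with a member of small radical. -/
theorem lower_with (h : ℝ) (h0 : 0 ≤ h) (h3 : h < 1 / 3) : ∀ᶠ Y : ℕ in atTop,
    (triplesWith h Y).Finite →
      1 / 8 * (Y : ℝ) ^ ((1 + h) / 2) ≤ (triplesWith h Y).ncard := by
  classical
  have h1 : Tendsto (fun Y : ℕ => (Y : ℝ) ^ ((1 - 3 * h) / 2)) atTop atTop :=
    (tendsto_rpow_atTop (by linarith)).comp tendsto_natCast_atTop_atTop
  have h2 : Tendsto (fun Y : ℕ => (Y : ℝ) ^ ((1 - h) / 2)) atTop atTop :=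
    (tendsto_rpow_atTop (by linarith)).comp tendsto_natCast_atTop_atTop
  filter_upwards [h1.eventually (eventually_ge_atTop (10 / 7)),
    h2.eventually (eventually_ge_atTop 10), eventually_ge_atTop 1] with Y g1 g2 hY1 hfin
  have hY0 : (0 : ℝ) < Y := by exact_mod_cast hY1
  have hY1' : (1 : ℝ) ≤ Y := by exact_mod_cast hY1
  set A : ℝ := (Y : ℝ) ^ h with hA
  set B : ℝ := 7 / 10 * (Y : ℝ) ^ ((1 - h) / 2) with hB
  have hA1 : 1 ≤ A := Real.one_le_rpow hY1' h0
  have hB4 : 4 ≤ B := by rw [hB]; linarith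
  have hAB : A ≤ B := by
    have e1 : (Y : ℝ) ^ ((1 - h) / 2) = (Y : ℝ) ^ ((1 - 3 * h) / 2) * A := by
      rw [hA, ← Real.rpow_add hY0]
      congr 1
      ring
    rw [hB, e1]
    nlinarith
  have hABB : A * B * (B + B) ≤ Y := by
    have e1 : (Y : ℝ) ^ ((1 - h) / 2) * (Y : ℝ) ^ ((1 - h) / 2) * A = Y := by
      rw [hA, ← Real.rpow_add hY0, ← Real.rpow_add hY0]
      have : (1 - h) / 2 + (1 - h) / 2 + h = 1 := by ring
      rw [this, Real.rpow_one]
    have e2 : A * B * (B + B) = 49 / 50 *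
        ((Y : ℝ) ^ ((1 - h) / 2) * (Y : ℝ) ^ ((1 - h) / 2) * A) := by
      rw [hB]
      ring
    rw [e2, e1]
    linarith
  have hABp : A * B = 7 / 10 * (Y : ℝ) ^ ((1 + h) / 2) := by
    have e1 : A * (Y : ℝ) ^ ((1 - h) / 2) = (Y : ℝ) ^ ((1 + h) / 2) := by
      rw [hA, ← Real.rpow_add hY0]
      congr 1
      ring
    rw [hB, ← e1]
    ring
  set f : ℕ × ℕ → ℕ × ℕ × ℕ := fun t => (t.1, t.2, t.1 + t.2) with hf
  have hinj : Function.Injective f := by
    rintro ⟨a, b⟩ ⟨a', b'⟩ h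
    simp only [hf, Prod.mk.injEq] at h
    rw [h.1, h.2.1]
  have hsub : ((copR ⌊A⌋₊ ⌊B⌋₊).image f : Set (ℕ × ℕ × ℕ)) ⊆ triplesWith h Y := by
    rintro ⟨a, b, c⟩ h
    rw [Finset.mem_coe, Finset.mem_image] at h
    obtain ⟨⟨a', b'⟩, h1, h2⟩ := h
    simp only [hf, Prod.mk.injEq] at h2
    obtain ⟨rfl, rfl, rfl⟩ := h2
    unfold copR at h1
    rw [Finset.mem_filter, Finset.mem_product, Finset.mem_Icc, Finset.mem_Icc] at h1
    obtain ⟨⟨⟨ha1, ha2⟩, ⟨hb1, hb2⟩⟩, hc⟩ := h1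
    simp only at ha1 ha2 hb1 hb2 hc
    have haA : (a' : ℝ) ≤ A := (Nat.le_floor_iff (by linarith)).mp ha2
    have hbB : (b' : ℝ) ≤ B := (Nat.le_floor_iff (by linarith)).mp hb2
    have hab : a' * b' * (a' + b') ≤ Y := by
      have : ((a' * b' * (a' + b') : ℕ) : ℝ) ≤ Y := by
        push_cast
        calc (a' : ℝ) * b' * (a' + b') ≤ A * B * (B + B) := by
              have h3 : (a' : ℝ) + b' ≤ B + B := by linarith
              gcongr
          _ ≤ Y := hABB
      exact_mod_cast this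
    have hpos : 0 < a' * b' * (a' + b') := by positivity
    refine ⟨⟨⟨ha1, hb1, by simp only; omega, hc, ?_, ?_, rfl⟩, ?_⟩, Or.inl ?_⟩
    · simp only
      exact (Nat.coprime_self_add_right).mpr hc
    · simp only
      exact (Nat.coprime_add_self_right).mpr hc.symm
    · simp only
      exact (rad_le hpos).trans hab
    · simp only
      refine le_trans ?_ haA
      exact_mod_cast rad_le ha1
  have hcard : (copR ⌊A⌋₊ ⌊B⌋₊).card ≤ (triplesWith h Y).ncard := by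
    have h1 := Set.ncard_le_ncard hsub hfin
    rw [Set.ncard_coe_finset, Finset.card_image_of_injective _ hinj] at h1
    exact h1
  have h3 := copR_real hA1 hB4
  have h4 : ((copR ⌊A⌋₊ ⌊B⌋₊).card : ℝ) ≤ (triplesWith h Y).ncard := by exact_mod_cast hcard
  have h5 : 0 ≤ (Y : ℝ) ^ ((1 + h) / 2) := by positivity
  rw [hABp] at h3
  linarith

/-- (1) For every `ε > 0` and all sufficiently large `Y` the set of ALL abc-triples with
`rad (abc) ≤ Y` is finite and has at least `Y ^ (2 / 3) / 4` and at most `Y ^ (2 / 3 + ε)`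
elements. (2) For all reals `h` with `0 ≤ h ≤ 1 / 3` and `ε > 0` and all sufficiently large `Y`
the set of all abc-triples with `rad (abc) ≤ Y` at least one member of which has radical at most
`Y ^ h` is finite and has at least `Y ^ ((1 + h) / 2) / 8` and at most
`Y ^ ((1 + h) / 2 + ε)` elements. -/
theorem result :
    (∀ ε : ℝ, 0 < ε → ∀ᶠ Y : ℕ in atTop, (triples Y).Finite ∧
      1 / 4 * (Y : ℝ) ^ (2 / 3 : ℝ) ≤ (triples Y).ncard ∧
      ((triples Y).ncard : ℝ) ≤ (Y : ℝ) ^ (2 / 3 + ε)) ∧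
    (∀ h ε : ℝ, 0 ≤ h → h ≤ 1 / 3 → 0 < ε → ∀ᶠ Y : ℕ in atTop, (triplesWith h Y).Finite ∧
      1 / 8 * (Y : ℝ) ^ ((1 + h) / 2) ≤ (triplesWith h Y).ncard ∧
      ((triplesWith h Y).ncard : ℝ) ≤ (Y : ℝ) ^ ((1 + h) / 2 + ε)) := by
  have first : ∀ ε : ℝ, 0 < ε → ∀ᶠ Y : ℕ in atTop, (triples Y).Finite ∧
      1 / 4 * (Y : ℝ) ^ (2 / 3 : ℝ) ≤ (triples Y).ncard ∧
      ((triples Y).ncard : ℝ) ≤ (Y : ℝ) ^ (2 / 3 + ε) := by
    intro ε hε
    filter_upwards [upper (1 / 3) ε hε, eventually_ge_atTop 13824] with Y hY hY1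
    rw [triplesWith_third Y (by omega)] at hY
    have e : ((1 : ℝ) + 1 / 3) / 2 + ε = 2 / 3 + ε := by ring
    rw [e] at hY
    exact ⟨hY.1, lower_all Y hY1 hY.1, hY.2⟩
  refine ⟨first, ?_⟩
  intro h ε h0 h3 hε
  rcases lt_or_eq_of_le h3 with hlt | heq
  · filter_upwards [upper h ε hε, lower_with h h0 hlt] with Y hY hlow
    exact ⟨hY.1, hlow hY.1, hY.2⟩
  · subst heq
    filter_upwards [first ε hε, eventually_ge_atTop 1] with Y hY hY1
    rw [triplesWith_third Y hY1]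
    have e : ((1 : ℝ) + 1 / 3) / 2 = 2 / 3 := by ring
    rw [e]
    have hY0 : (0 : ℝ) ≤ (Y : ℝ) ^ (2 / 3 : ℝ) := by positivity
    exact ⟨hY.1, by linarith [hY.2.1], hY.2.2⟩

end Pool.Agent.Results.MP_2ec8a3_nt.SharpCount
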