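import Pool.Agent.Lib.Pb99418U.Growth

/-!
Reserve: replaced by `DiameterLimit`.  Claim of the former hand-in:

Proves: The diameter D_n of the n-th level quotient of the Grigorchuk group G has exact order of growth x^n, where x = 2.467... is the unique positive root of x^3 = x^2+2x+4: there are c > 0 and C with c x^n <= D_n <= C x^n for all n >= 1. Also, for some c > 0 and every r >= 1, at least exp(c r^(log 2/log x)) elements of G are products of at most r generators.
Definitions: Words over {0,1} are List Bool. act/gen: the generators a,b,c,d; G: the group of permutations of all words they generate; stab n: the elements fixing all words of length n; Gn n = G/stab n; gbar: images of the generators; len n g: least k such that g is a product of k generators; D n: supremum of the lengths (a maximum); elt s: product in G of the word s; ballG r: elements of G given by words of length at most r.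
Relation: Partial answer to Q1: settles D_n up to constant factors, for all n. Open: the exact value of D_n (by computer, not part of the proof, D_n = 8, 24, 56 for n = 3, 4, 5) and Q2. New: the upper bound. The lower bound is that of our hand-in ExactLastLevel and follows from Bartholdi's growth bound exp(C r^0.767). Before: D_n = O(y^n) with larger y only, such as O(32^(n/3)); Erschler and Zheng (Growth of periodic Grigorchuk groups, Invent. Math. 2020) show by random walks that G has growth at least exp(r^(a-eps)), a = log 2/log x; the bound here has no loss in the exponent.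
-/

/-!
# The exact order of growth of the diameters of the level quotients of the Grigorchuk group

Let `x = 2.467…` be the positive root of `x ^ 3 = x ^ 2 + 2 x + 4`.  Then
`c x ^ n ≤ D_n ≤ C x ^ n` for all `n ≥ 1` with two constants `c, C > 0`.  As a consequence the
number of the elements of `G` of length at most `r` is at least `exp (c r ^ (log 2 / log x))` for
all `r ≥ 1`.

Idea of the proof of the upper bound.  Let `K` be the normal closure of `(ab)^2` in `G`, `K^(i)`
the product of the copies of `K` at the vertices of level `i`, and `Δ_i` the diameter of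
`G / K^(i)`.  There is a chain `K = N_0 > N_1 > … > N_M = K^(k)` of `M = 2 (2^k - 1)` steps of
order two, each central in `G / N_{m+1}`.  An element of `N_m^(j)` is killed modulo `N_{m+1}^(j)`
level by level, by commutators of elements `B`, prescribed modulo `K^(i-1)` only (the unknown deeper
part of `B` does not matter as the step is central), with the elements `Φ^{i-2}(h)`,
`Φ(g) = (g, a g a)`, whose weighted length is multiplied exactly by `x` by `Φ`.  This gives
`Δ_{j+k} ≤ Δ_j + 8 (2^k - 1) ∑_{i<j} Δ_i + C_k x^j`, and `1 + 8 (2^k - 1) / (x - 1) < x^k` for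
`k = 9`.
-/

namespace Pool.Agent.Results.MP_b99418_al.SharpOrder

open Pool.Agent.Lib.Pb99418 Pool.Agent.Lib.Pb99418U

theorem result :
    ∃ x : ℝ, 0 < x ∧ x ^ 3 = x ^ 2 + 2 * x + 4 ∧
      (∀ y : ℝ, 0 < y → y ^ 3 = y ^ 2 + 2 * y + 4 → y = x) ∧
      (∃ c C : ℝ, 0 < c ∧ ∀ n : ℕ, 1 ≤ n → c * x ^ n ≤ (D n : ℝ) ∧ (D n : ℝ) ≤ C * x ^ n) ∧
      (∃ c : ℝ, 0 < c ∧ ∀ r : ℕ, 1 ≤ r →
        Real.exp (c * (r : ℝ) ^ (Real.log 2 / Real.log x)) ≤ ((ballG r).ncard : ℝ)) := by
  obtain ⟨x, hx0, hx⟩ := exists_root
  refine ⟨x, hx0, hx, fun y hy0 hy => root_unique x y hx0 hx hy0 hy, ?_, growth x hx0 hx⟩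
  obtain ⟨c, hc, hlow⟩ := D_low x hx0 hx
  obtain ⟨C, _, hup⟩ := D_up x hx0 hx
  exact ⟨c, C, hc, fun n hn => ⟨hlow n hn, hup n⟩⟩

end Pool.Agent.Results.MP_b99418_al.SharpOrder
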