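import Mathlib
import Pool.Agent.Lib.Pabc8.MainR
import Pool.Agent.Lib.Pabc8.Lower

open Filter

namespace Pool.Agent.Results.MP_2ec8a3_nt.SmallMemberRadical

/-- The radical of `n`: the product of the distinct primes dividing `n`. -/
def rad (n : ℕ) : ℕ := ∏ p ∈ n.primeFactors, p

/-- `(a, b, c)` is an abc-triple: pairwise coprime positive integers with `a + b = c`. -/
def AbcTriple (a b c : ℕ) : Prop :=
  0 < a ∧ 0 < b ∧ 0 < c ∧ a.Coprime b ∧ a.Coprime c ∧ b.Coprime c ∧ a + b = c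

/-- The abc-triples `(a, b, c)` with `rad (abc) ≤ Y` and `log c ≤ H` such that at least one of
`rad a`, `rad b`, `rad c` is at most `Y ^ η`. -/
def triples (η H : ℝ) (Y : ℕ) : Set (ℕ × ℕ × ℕ) :=
  {t | AbcTriple t.1 t.2.1 t.2.2 ∧ rad (t.1 * t.2.1 * t.2.2) ≤ Y ∧ Real.log t.2.2 ≤ H ∧
    ((rad t.1 : ℝ) ≤ (Y : ℝ) ^ η ∨ (rad t.2.1 : ℝ) ≤ (Y : ℝ) ^ η ∨
      (rad t.2.2 : ℝ) ≤ (Y : ℝ) ^ η)}

open Pool.Agent.Lib.Pabc1 Pool.Agent.Lib.Pabc2 Pool.Agent.Lib.Pabc8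

theorem rad_le {n : ℕ} (hn : 0 < n) : rad n ≤ n :=
  Nat.le_of_dvd hn (Nat.prod_primeFactors_dvd n)

theorem Wt_rad (n : ℕ) : Wt 1 n = rad n := by
  rw [Wt_eq, one_pow, mul_one]
  rfl

theorem lower (η : ℝ) (hη0 : 0 ≤ η) (hη1 : η < 1 / 3) : ∀ᶠ Y : ℕ in atTop, ∀ H : ℝ,
    Real.log Y ≤ H → (triples η H Y).Finite →
      1 / 8 * (Y : ℝ) ^ ((1 + η) / 2) ≤ (triples η H Y).ncard := by
  classical
  have h1 : Tendsto (fun Y : ℕ => (Y : ℝ) ^ ((1 - 3 * η) / 2)) atTop atTop :=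
    (tendsto_rpow_atTop (by linarith)).comp tendsto_natCast_atTop_atTop
  have h2 : Tendsto (fun Y : ℕ => (Y : ℝ) ^ ((1 - η) / 2)) atTop atTop :=
    (tendsto_rpow_atTop (by linarith)).comp tendsto_natCast_atTop_atTop
  filter_upwards [h1.eventually (eventually_ge_atTop (10 / 7)),
    h2.eventually (eventually_ge_atTop 10), eventually_ge_atTop 1] with Y g1 g2 hY1 H hH hfin
  have hY0 : (0 : ℝ) < Y := by exact_mod_cast hY1
  have hY1' : (1 : ℝ) ≤ Y := by exact_mod_cast hY1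
  set A : ℝ := (Y : ℝ) ^ η with hA
  set B : ℝ := 7 / 10 * (Y : ℝ) ^ ((1 - η) / 2) with hB
  have hA1 : 1 ≤ A := Real.one_le_rpow hY1' hη0
  have hB4 : 4 ≤ B := by rw [hB]; linarith
  have hAB : A ≤ B := by
    have e1 : (Y : ℝ) ^ ((1 - η) / 2) = (Y : ℝ) ^ ((1 - 3 * η) / 2) * A := by
      rw [hA, ← Real.rpow_add hY0]
      congr 1
      ring
    rw [hB, e1]
    nlinarith
  have hABB : A * B * (B + B) ≤ Y := by
    have e1 : (Y : ℝ) ^ ((1 - η) / 2) * (Y : ℝ) ^ ((1 - η) / 2) * A = Y := by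
      rw [hA, ← Real.rpow_add hY0, ← Real.rpow_add hY0]
      have : (1 - η) / 2 + (1 - η) / 2 + η = 1 := by ring
      rw [this, Real.rpow_one]
    have e2 : A * B * (B + B) = 49 / 50 *
        ((Y : ℝ) ^ ((1 - η) / 2) * (Y : ℝ) ^ ((1 - η) / 2) * A) := by
      rw [hB]
      ring
    rw [e2, e1]
    linarith
  have hABp : A * B = 7 / 10 * (Y : ℝ) ^ ((1 + η) / 2) := by
    have e1 : A * (Y : ℝ) ^ ((1 - η) / 2) = (Y : ℝ) ^ ((1 + η) / 2) := by
      rw [hA, ← Real.rpow_add hY0]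
      congr 1
      ring
    rw [hB, ← e1]
    ring
  set f : ℕ × ℕ → ℕ × ℕ × ℕ := fun t => (t.1, t.2, t.1 + t.2) with hf
  have hinj : Function.Injective f := by
    rintro ⟨a, b⟩ ⟨a', b'⟩ h
    simp only [hf, Prod.mk.injEq] at h
    rw [h.1, h.2.1]
  have hsub : ((copR ⌊A⌋₊ ⌊B⌋₊).image f : Set (ℕ × ℕ × ℕ)) ⊆ triples η H Y := by
    rintro ⟨a, b, c⟩ h
    rw [Finset.mem_coe, Finset.mem_image] at h
    obtain ⟨⟨a', b'⟩, h1, h2⟩ := h
    simp only [hf, Prod.mk.injEq] at h2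
    obtain ⟨rfl, rfl, rfl⟩ := h2
    unfold copR at h1
    rw [Finset.mem_filter, Finset.mem_product, Finset.mem_Icc, Finset.mem_Icc] at h1
    obtain ⟨⟨⟨ha1, ha2⟩, ⟨hb1, hb2⟩⟩, hc⟩ := h1
    simp only at ha1 ha2 hb1 hb2 hc
    have haA : (a' : ℝ) ≤ A := (Nat.le_floor_iff (by linarith)).mp ha2
    have hbB : (b' : ℝ) ≤ B := (Nat.le_floor_iff (by linarith)).mp hb2
    have hab : a' * b' * (a' + b') ≤ Y := by
      have : ((a' * b' * (a' + b') : ℕ) : ℝ) ≤ Y := by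
        push_cast
        calc (a' : ℝ) * b' * (a' + b') ≤ A * B * (B + B) := by
              have h3 : (a' : ℝ) + b' ≤ B + B := by linarith
              gcongr
          _ ≤ Y := hABB
      exact_mod_cast this
    have hpos : 0 < a' * b' * (a' + b') := by positivity
    refine ⟨⟨ha1, hb1, by simp only; omega, hc, ?_, ?_, rfl⟩, ?_, ?_, Or.inl ?_⟩
    · simp only
      exact (Nat.coprime_self_add_right).mpr hc
    · simp only
      exact (Nat.coprime_add_self_right).mpr hc.symm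
    · simp only
      exact (rad_le hpos).trans hab
    · simp only
      refine le_trans ?_ hH
      apply Real.log_le_log
      · have : 0 < a' + b' := by omega
        exact_mod_cast this
      · have h5 : a' + b' ≤ Y := by
          refine le_trans ?_ hab
          exact Nat.le_mul_of_pos_left _ (by positivity)
        exact_mod_cast h5
    · simp only
      refine le_trans ?_ haA
      exact_mod_cast rad_le ha1
  have hcard : (copR ⌊A⌋₊ ⌊B⌋₊).card ≤ (triples η H Y).ncard := by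
    have h1 := Set.ncard_le_ncard hsub hfin
    rw [Set.ncard_coe_finset, Finset.card_image_of_injective _ hinj] at h1
    exact h1
  have h3 := copR_real hA1 hB4
  have h4 : ((copR ⌊A⌋₊ ⌊B⌋₊).card : ℝ) ≤ (triples η H Y).ncard := by exact_mod_cast hcard
  have h5 : 0 ≤ (Y : ℝ) ^ ((1 + η) / 2) := by positivity
  rw [hABp] at h3
  linarith

/-- For all reals `η`, `θ`, `ε` with `0 ≤ η < 1/3` and `θ, ε > 0` and all sufficiently large `Y`:
for every real `H` with `log Y ≤ H ≤ Y ^ θ` the number of abc-triples with `rad (abc) ≤ Y` and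
`log c ≤ H`, at least one member of which has radical at most `Y ^ η`, is finite, at least
`Y ^ ((1 + η) / 2) / 8` and at most `Y ^ ((1 + η) / 2 + θ + ε)`. -/
theorem result (η θ ε : ℝ) (hη0 : 0 ≤ η) (hη1 : η < 1 / 3) (hθ : 0 < θ) (hε : 0 < ε) :
    ∀ᶠ Y : ℕ in atTop, ∀ H : ℝ, Real.log Y ≤ H → H ≤ (Y : ℝ) ^ θ → (triples η H Y).Finite ∧
      1 / 8 * (Y : ℝ) ^ ((1 + η) / 2) ≤ (triples η H Y).ncard ∧
      ((triples η H Y).ncard : ℝ) ≤ (Y : ℝ) ^ ((1 + η) / 2 + θ + ε) := by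
  filter_upwards [main_smallR θ η ε hθ.le hε, lower η hη0 hη1] with Y hY hlow H hH1 hH2
  obtain ⟨h1, h2⟩ := transferP (fun t => ∃ s : Fin 3, Wt 1 (comp t s) ≤ (Y : ℝ) ^ η) (by
    rintro ⟨a, b⟩ ⟨s, hs⟩
    have e0 : ∀ x y : ℕ, comp (x, y) 0 = x := fun x y => comp_zero (x, y)
    have e1 : ∀ x y : ℕ, comp (x, y) 1 = y := fun x y => comp_one (x, y)
    have e2 : ∀ x y : ℕ, comp (x, y) 2 = x + y := fun x y => comp_two (x, y)
    have hs' : s = 0 ∨ s = 1 ∨ s = 2 := by omega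
    rcases hs' with rfl | rfl | rfl
    · rw [e0] at hs
      exact ⟨1, by rw [Prod.swap_prod_mk, e1]; exact hs⟩
    · rw [e1] at hs
      exact ⟨0, by rw [Prod.swap_prod_mk, e0]; exact hs⟩
    · rw [e2] at hs
      exact ⟨2, by rw [Prod.swap_prod_mk, e2, add_comm]; exact hs⟩) Y H
    ((Y : ℝ) ^ ((1 + η) / 2 + θ + ε)) (by
    intro T hT
    apply hY T
    intro t ht'
    exact ⟨(hT t ht').1, (hT t ht').2.1, (hT t ht').2.2.1.trans hH2, (hT t ht').2.2.2⟩)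
    (triples η H Y) (by
    rintro ⟨a, b, c⟩ ⟨⟨h1, h2, h0, h3, _, _, h4⟩, h5, h6, h7⟩
    simp only at h1 h2 h0 h3 h4 h5 h6 h7
    refine ⟨h1, h2, h3, h4, h5, h6, ?_⟩
    rcases h7 with h7 | h7 | h7
    · exact ⟨0, by rw [comp_zero, Wt_rad]; exact h7⟩
    · exact ⟨1, by rw [comp_one, Wt_rad]; exact h7⟩
    · exact ⟨2, by rw [comp_two, Wt_rad]; simp only; rw [h4]; exact h7⟩)
  exact ⟨h1, hlow H hH1 h1, h2⟩

end Pool.Agent.Results.MP_2ec8a3_nt.SmallMemberRadical
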