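import Pool.Agent.Lib.P51a855.Upper
import Pool.Agent.Lib.P51a855.Good
import Pool.Agent.Lib.P51a855.Lower

/-!
Problem MP_51a855_an, Q1, partial answer: for every `d ≥ 3` and every `1 ≤ p ≤ ∞` the Korobov
formulas are optimal in the sense of order for the classes `H^r_p` in the whole range
`1/p < r < 1`; the optimal order is `m^{-r} (log m)^{d-1}`.  (Known before: only `p = ∞`.)

Upper bound: with dyadic blocks of Fejér means `f = ∑_s f * K_s` and a reproducing kernel `W_s`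
one has `|P_m(f * K_s)| ≤ C 2^{-r|s|} D_s(a)^{1/p}`, where `D_s(a)` is the number of points of the
dual lattice `{k : m ∣ k·a}` in the dyadic box `s`; the average of `∑_s 2^{-r|s|} D_s(a)^{1/p}` over
all `a` modulo `m` for which all `gcd(a_j, m)` are at most `(log m)^2` has the right order.
Lower bound: a sum over all shapes of hat functions on the dyadic boxes that contain no node.
-/

set_option autoImplicit false

open MeasureTheory
open scoped ENNReal NNReal

noncomputable section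

namespace Pool.Agent.Results.MP_51a855_an.SmallSmoothness

open Pool.Agent.Lib.P51a855

/-- bounded functions with bounded differences are in the class -/
lemma mem_HClass {d l : ℕ} {r : ℝ} {p : ℝ≥0∞} {f : C(Torus d, ℝ)}
    (h1 : ∀ x, |f x| ≤ 1)
    (h2 : ∀ e : Finset (Fin d), e.Nonempty → ∀ (t : Fin d → ℝ) x,
        |mixedDiff l e t f x| ≤ ∏ j ∈ e, |t j| ^ r) : f ∈ HClass d l r p := by
  have key : ∀ (g : Torus d → ℝ) (B : ℝ), (∀ x, |g x| ≤ B) →
      eLpNorm g p (haarT d) ≤ ENNReal.ofReal B := by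
    intro g B hB
    have h := eLpNorm_le_of_ae_bound (p := p) (μ := haarT d) (f := g) (C := B)
      (Filter.Eventually.of_forall fun x => by rw [Real.norm_eq_abs]; exact hB x)
    simpa using h
  refine ⟨?_, fun e he t => key _ _ (h2 e he t)⟩
  have := key f 1 h1
  simpa using this

/-- **Result.**  Let `d ≥ 3`, `1 ≤ p ≤ ∞`, `1/p < r < 1`, and let the class `H^r_p` be defined with
differences of order `l ≥ 1`.  Then the Korobov formulas are optimal in the sense of order for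
`H^r_p`; more precisely, with constants `c, C > 0`, for every `m ≥ 2` one has
`κ_m(H^r_p) ≥ c m^{-r} (log m)^{d-1}` and `P_m(H^r_p, a) ≤ C m^{-r} (log m)^{d-1}` for some
`a ∈ ℤ^d`. -/
theorem result (d : ℕ) (hd : 3 ≤ d) (l : ℕ) (hl : 1 ≤ l) (p : ℝ≥0∞) (hp : 1 ≤ p) (r : ℝ)
    (hpr : 1 / p < ENNReal.ofReal r) (hr : r < 1) :
    KorobovOptimal (HClass d l r p) ∧
      ∃ c C : ℝ, 0 < c ∧ 0 < C ∧ ∀ m : ℕ, 2 ≤ m →
        ENNReal.ofReal (c * (m : ℝ) ^ (-r) * Real.log m ^ (d - 1)) ≤ kappa m (HClass d l r p) ∧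
        ∃ a : Fin d → ℤ, korobovErr m a (HClass d l r p) ≤
          ENNReal.ofReal (C * (m : ℝ) ^ (-r) * Real.log m ^ (d - 1)) := by
  have hr0 : 0 < r := by
    have h1 : (0 : ℝ≥0∞) < ENNReal.ofReal r := lt_of_le_of_lt (zero_le) hpr
    exact ENNReal.ofReal_pos.1 h1
  have hθ0 : 0 ≤ 1 / p.toReal := div_nonneg zero_le_one ENNReal.toReal_nonneg
  have hθr : 1 / p.toReal < r := by
    have h1 := ENNReal.toReal_lt_of_lt_ofReal hpr
    rwa [ENNReal.toReal_div, ENNReal.toReal_one] at h1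
  obtain ⟨C1, hC1, hgood⟩ := exists_good d hd (1 / p.toReal) r hθ0 hθr hr
  obtain ⟨C2, hC2, hupper⟩ := korobov_upper d l hl r hr0 hr p hp
  obtain ⟨c, hc, hfool⟩ := fooling d l (by omega) hl r hr0 hr
  -- the upper bound
  have hup : ∀ m : ℕ, 2 ≤ m → ∃ a : Fin d → ℤ, korobovErr m a (HClass d l r p) ≤
      ENNReal.ofReal ((C2 * C1 + 1) * (m : ℝ) ^ (-r) * Real.log m ^ (d - 1)) := by
    intro m hm
    obtain ⟨a, ha⟩ := hgood m hm
    refine ⟨a, iSup₂_le fun f hf => ENNReal.ofReal_le_ofReal ?_⟩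
    have h1 := hupper m (by omega) a _ ha f hf
    have hlog : 0 ≤ Real.log m := Real.log_nonneg (by exact_mod_cast (by omega : 1 ≤ m))
    have h2 : 0 ≤ (m : ℝ) ^ (-r) * Real.log m ^ (d - 1) := by positivity
    calc |korobov m a f - mean f| ≤ C2 * (C1 * (m : ℝ) ^ (-r) * Real.log m ^ (d - 1)) := h1
      _ ≤ (C2 * C1 + 1) * ((m : ℝ) ^ (-r) * Real.log m ^ (d - 1)) := by nlinarith
      _ = _ := by ring
  -- the lower bound
  have hlow : ∀ m : ℕ, 2 ≤ m →
      ENNReal.ofReal (c * (m : ℝ) ^ (-r) * Real.log m ^ (d - 1)) ≤ kappa m (HClass d l r p) := by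
    intro m hm
    refine le_iInf fun ξ => le_iInf fun w => ?_
    obtain ⟨f, hf1, hf2, hf3, hf4⟩ := hfool m hm ξ
    have hf : f ∈ HClass d l r p := mem_HClass hf1 hf2
    refine le_trans ?_ (le_iSup₂ (f := fun (f : C(Torus d, ℝ)) (_ : f ∈ HClass d l r p) =>
      ENNReal.ofReal |∑ μ, w μ * f (ξ μ) - mean f|) f hf)
    refine ENNReal.ofReal_le_ofReal ?_
    have h1 : ∑ μ, w μ * f (ξ μ) = 0 := Finset.sum_eq_zero fun μ _ => by rw [hf3 μ, mul_zero]
    rw [h1, zero_sub, abs_neg]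
    exact hf4.trans (le_abs_self _)
  refine ⟨⟨((C2 * C1 + 1) / c).toNNReal, fun m hm => ?_⟩, c, C2 * C1 + 1, hc, by positivity,
    fun m hm => ⟨hlow m hm, hup m hm⟩⟩
  obtain ⟨a, ha⟩ := hup m hm
  refine ⟨a, ha.trans ?_⟩
  have h1 : (C2 * C1 + 1) * (m : ℝ) ^ (-r) * Real.log m ^ (d - 1) =
      (C2 * C1 + 1) / c * (c * (m : ℝ) ^ (-r) * Real.log m ^ (d - 1)) := by
    field_simp
  rw [h1, ENNReal.ofReal_mul (by positivity)]
  exact mul_le_mul_right (hlow m hm) _

end Pool.Agent.Results.MP_51a855_an.SmallSmoothness
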