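import Mathlib
import Pool.Agent.Lib.Pad9061.Nested

/-!
Reserve: replaced by a stronger theorem of the same name. Claim of the former hand-in:

Proves: For all n ≥ 2, 1 ≤ w ≤ s and every CNF F over n variables: if F has a space-aware refutation of total space ≤ s in which all clauses of all configurations have width ≤ w, then F has a resolution refutation (a DAG, no weakening) of depth ≤ 800·w·s·(1+log(s/w))²·log n.
Definitions: none of our own; space-aware refutation and depth are written out exactly as in the frozen S15209, with all clauses of M_t having at most w literals as additional condition (w = s is no condition).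
Relation: Partial answer to Q1, in the negative direction: D(F) ≤ O~(w·TSp) in place of the known D(F) ≤ O~(TSp²). So a refutation with TSp = Θ~(√D) must contain clauses of width at least TSp/polylog(n); for clauses of polylogarithmic width (e.g. refutations coming from pebblings) even D ≤ O~(TSp), so there the gap is at most polylogarithmic. It does not decide Q1 for wide clauses. Proof: nested deferral of the evaluation of configurations, driven by one entropy potential.
-/

set_option autoImplicit false

/-!
# Total space versus depth in resolution: depth is at most width times total space, up to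
polylogarithmic factors
-/

namespace Pool.Agent.Lib.Reserve.SpaceTimesWidthad9061

open scoped BigOperators

/-- If a CNF `F` over `n ≥ 2` variables has a space-aware refutation of total space at most `s` in
which every clause of every configuration has at most `w ≤ s` literals, then `F` has a resolution
refutation (a DAG without weakening) of depth at most `800 w s (1 + log (s / w)) ^ 2 log n`. -/
theorem result :
    ∀ n s w : ℕ, 2 ≤ n → 1 ≤ w → w ≤ s → ∀ F : Finset (Finset (Fin n × Bool)),
      (∃ τ : ℕ, ∃ M : ℕ → Finset (Finset (Fin n × Bool)),
        M 0 = ∅ ∧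
        (∅ : Finset (Fin n × Bool)) ∈ M τ ∧
        (∀ t < τ,
          (∃ C ∈ F, M (t + 1) = insert C (M t)) ∨
          (∃ A ∈ M t, ∃ B ∈ M t, ∃ v : Fin n,
            (v, true) ∈ A ∧ (v, false) ∈ B ∧
            M (t + 1) = insert (A.erase (v, true) ∪ B.erase (v, false)) (M t)) ∨
          M (t + 1) ⊆ M t) ∧
        ∀ t ≤ τ, ∑ C ∈ M t, C.card ≤ s ∧ ∀ C ∈ M t, C.card ≤ w) →
      ∃ d : ℕ,
        (∃ r : Finset (Fin n × Bool) → ℕ, ∃ S : Set (Finset (Fin n × Bool)),
          (∅ : Finset (Fin n × Bool)) ∈ S ∧
          ∀ C ∈ S, r C ≤ d ∧
            (C ∈ F ∨
              ∃ A ∈ S, ∃ B ∈ S, ∃ v : Fin n,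
                (v, true) ∈ A ∧ (v, false) ∈ B ∧
                C = A.erase (v, true) ∪ B.erase (v, false) ∧
                r A < r C ∧ r B < r C)) ∧
        (d : ℝ) ≤ 800 * w * s * (1 + Real.log ((s : ℝ) / w)) ^ 2 * Real.log n := by
  intro n s w hn hw hws F hF
  obtain ⟨d, h1, h2⟩ := Pool.Agent.Lib.Pad9061.nested_bound hn hw hws hF
  refine ⟨d, h1, h2.trans (le_of_eq ?_)⟩
  ring

end Pool.Agent.Lib.Reserve.SpaceTimesWidthad9061
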