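import Mathlib
import Pool.Agent.Lib.KakSp.Traj

/-!
# Power-saving bounds for the trajectories, the cycles and the large orbits of the `7x+1` map

For the map `C = C_{7,{2,3,5}}` of the problem: every trajectory, also an unbounded one, takes at
most `K x^(19/20)` values `≤ x`; at most `K x^(19/20)` of the integers `1 ≤ n ≤ x` lie on a cycle of
`C`; and for all but at most `K x^(999/1000)` of the integers `1 ≤ n ≤ x` some iterate of `n` is at
most `n^(4/5)`.

The proof (library `Pool.Agent.Lib.KakSp`) is a weighted transfer inequality on the 30 residue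
classes modulo 30, jointly with a class modulo a power of 7.
-/

open Finset

namespace Pool.Agent.Lib.Reserve.SparseTrajectoriesOld13c925

/-- the map of the problem -/
def C (m : ℕ) : ℕ := if 2 ∣ m then m / 2 else if 3 ∣ m then m / 3
  else if 5 ∣ m then m / 5 else 7 * m + 1

open Classical in
theorem result : ∃ K : ℝ, ∀ x : ℕ, 1 ≤ x →
    (∀ n : ℕ, 1 ≤ n → (((Icc 1 x).filter (fun m : ℕ => ∃ k : ℕ, C^[k] n = m)).card : ℝ)
      ≤ K * (x : ℝ) ^ (19 / 20 : ℝ)) ∧
    (((Icc 1 x).filter (fun n : ℕ => ∃ k : ℕ, 0 < k ∧ C^[k] n = n)).card : ℝ)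
      ≤ K * (x : ℝ) ^ (19 / 20 : ℝ) ∧
    (((Icc 1 x).filter (fun n : ℕ => ∀ k : ℕ, (n : ℝ) ^ (4 / 5 : ℝ) < (C^[k] n : ℝ))).card : ℝ)
      ≤ K * (x : ℝ) ^ (999 / 1000 : ℝ) := by
  have hC : C = KakSp.C := rfl
  rw [hC]
  have h3 := KakSp.C0_pos KakSp.D10
  have h4 := KakSp.C0_pos KakSp.D3
  refine ⟨(8 * KakSp.C0 KakSp.D3 + 64) + (KakSp.C0 KakSp.D10 + 1), fun x hx => ⟨?_, ?_, ?_⟩⟩
  · intro n _
    refine le_trans (KakSp.trajectory n x hx) ?_
    apply mul_le_mul_of_nonneg_right _ (by positivity)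
    linarith
  · refine le_trans (KakSp.periodic x hx) ?_
    apply mul_le_mul_of_nonneg_right _ (by positivity)
    linarith
  · refine le_trans (KakSp.exceptional x hx) ?_
    apply mul_le_mul_of_nonneg_right _ (by positivity)
    linarith

end Pool.Agent.Lib.Reserve.SparseTrajectoriesOld13c925
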