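import Mathlib
import Pool.Agent.Lib.Pabc11.Pure

open Filter

namespace Pool.Agent.Results.MP_2ec8a3_nt.TallTriples

/-- The radical of `n`: the product of the distinct primes dividing `n`. -/
def rad (n : ℕ) : ℕ := ∏ p ∈ n.primeFactors, p

/-- `(a, b, c)` is an abc-triple: pairwise coprime positive integers with `a + b = c`. -/
def AbcTriple (a b c : ℕ) : Prop :=
  0 < a ∧ 0 < b ∧ 0 < c ∧ a.Coprime b ∧ a.Coprime c ∧ b.Coprime c ∧ a + b = c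

/-- `m = s * ∏ x i ^ e i` with `k` positive integers `x i` and `s > 0`, where
`rad s * ∏ x i ≤ Y` and `rad s ≤ Y ^ η`. -/
def Shape (Y : ℕ) (η : ℝ) (k m : ℕ) : Prop :=
  ∃ (s : ℕ) (x e : Fin k → ℕ), 0 < s ∧ (∀ i, 0 < x i) ∧ m = s * ∏ i, x i ^ e i ∧
    (rad s : ℝ) ≤ (Y : ℝ) ^ η ∧ rad s * ∏ i, x i ≤ Y

/-- The abc-triples `(a, b, c)` with `rad (abc) ≤ Y` and `log c ≥ Y ^ (K / log log Y)`. -/
def tall (K : ℝ) (Y : ℕ) : Set (ℕ × ℕ × ℕ) :=
  {t | AbcTriple t.1 t.2.1 t.2.2 ∧ rad (t.1 * t.2.1 * t.2.2) ≤ Y ∧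
    (Y : ℝ) ^ (K / Real.log (Real.log Y)) ≤ Real.log t.2.2}

/-- `m` is a prime power times a number smaller than `c ^ δ`. -/
def Near (δ : ℝ) (c m : ℕ) : Prop :=
  ∃ A p e : ℕ, p.Prime ∧ m = A * p ^ e ∧ (A : ℝ) < (c : ℝ) ^ δ

/-- The triples of `tall K Y` which do not satisfy: `a, b > c ^ (1 - δ)` and each of `a, b, c` is a
prime power times a number smaller than `c ^ δ`. -/
def mixed (δ K : ℝ) (Y : ℕ) : Set (ℕ × ℕ × ℕ) :=
  {t | t ∈ tall K Y ∧ ¬ ((t.2.2 : ℝ) ^ (1 - δ) < t.1 ∧ (t.2.2 : ℝ) ^ (1 - δ) < t.2.1 ∧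
    Near δ t.2.2 t.1 ∧ Near δ t.2.2 t.2.1 ∧ Near δ t.2.2 t.2.2)}

/-- The abc-triples `(a, b, c)` such that
* `(a, b, c)` belongs to `tall K Y`, or for some `k` the product `abc` has the shape `Shape Y η k` and
  `log c ≥ C ^ (k + 1) log Y`, and
* `min a b ≤ c ^ (1 - δ)`, or one of `a, b, c` has a divisor `M ≥ c ^ δ` of radical at most `z`. -/
def high (δ K C η z : ℝ) (Y : ℕ) : Set (ℕ × ℕ × ℕ) :=
  {t | AbcTriple t.1 t.2.1 t.2.2 ∧
    (t ∈ tall K Y ∨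
      ∃ k, Shape Y η k (t.1 * t.2.1 * t.2.2) ∧ C ^ (k + 1) * Real.log Y ≤ Real.log t.2.2) ∧
    (((min t.1 t.2.1 : ℕ) : ℝ) ≤ (t.2.2 : ℝ) ^ (1 - δ) ∨
      ∃ M : ℕ, (M ∣ t.1 ∨ M ∣ t.2.1 ∨ M ∣ t.2.2) ∧ (t.2.2 : ℝ) ^ δ ≤ M ∧ (rad M : ℝ) ≤ z)}

open Pool.Agent.Lib.Pabc1 Pool.Agent.Lib.Pabc2

/-- From sets of ordered pairs to sets of triples. -/
theorem to_triples (P : ℕ × ℕ → Prop) (hP : ∀ t, P t → P t.swap) (B : ℝ)
    (key0 : ∀ T : Finset (ℕ × ℕ), (∀ t ∈ T, IsT t ∧ P t) → 2 * (T.card : ℝ) ≤ B)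
    (S : Set (ℕ × ℕ × ℕ))
    (hS : ∀ a b c : ℕ, (a, b, c) ∈ S → AbcTriple a b c ∧ (c = a + b → P (a, b))) :
    S.Finite ∧ (S.ncard : ℝ) ≤ B := by
  classical
  have key : ∀ T : Finset (ℕ × ℕ), (∀ t ∈ T, (0 < t.1 ∧ 0 < t.2 ∧ Nat.Coprime t.1 t.2) ∧
      P t) → (T.card : ℝ) ≤ B := by
    intro T hT
    have h1 := key0 (T.filter (fun t => t.1 ≤ t.2)) (by
      intro t ht'
      rw [Finset.mem_filter] at ht'
      obtain ⟨⟨a1, a2, a3⟩, a4⟩ := hT t ht'.1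
      exact ⟨⟨a1, ht'.2, a3⟩, a4⟩)
    have h3 := key0 ((T.filter (fun t => ¬ t.1 ≤ t.2)).image Prod.swap) (by
      intro t ht'
      rw [Finset.mem_image] at ht'
      obtain ⟨s, hs, rfl⟩ := ht'
      rw [Finset.mem_filter] at hs
      obtain ⟨⟨a1, a2, a3⟩, a4⟩ := hT s hs.1
      refine ⟨⟨a2, ?_, a3.symm⟩, hP s a4⟩
      simp only [Prod.fst_swap, Prod.snd_swap]
      omega)
    rw [Finset.card_image_of_injective _ Prod.swap_injective] at h3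
    have hcard : (T.card : ℝ) = (T.filter (fun t => t.1 ≤ t.2)).card +
        (T.filter (fun t => ¬ t.1 ≤ t.2)).card := by
      exact_mod_cast (Finset.card_filter_add_card_filter_not (s := T) (fun t => t.1 ≤ t.2)).symm
    linarith
  set PS : Set (ℕ × ℕ) := {t | (0 < t.1 ∧ 0 < t.2 ∧ Nat.Coprime t.1 t.2) ∧ P t} with hPS
  have hfin : PS.Finite := finite_of_card_le PS _ (fun T hT => key T (fun t ht' => hT t ht'))
  have hcardPS : (PS.ncard : ℝ) ≤ B := by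
    rw [Set.ncard_eq_toFinset_card _ hfin]
    apply key
    intro t ht'
    exact (Set.Finite.mem_toFinset hfin).mp ht'
  set f : ℕ × ℕ × ℕ → ℕ × ℕ := fun t => (t.1, t.2.1) with hf
  have hinj : Set.InjOn f S := by
    rintro ⟨a, b, c⟩ ht ⟨a', b', c'⟩ ht' heq
    simp only [hf, Prod.mk.injEq] at heq
    obtain ⟨rfl, rfl⟩ := heq
    have h1 := (hS _ _ _ ht).1.2.2.2.2.2.2
    have h2 := (hS _ _ _ ht').1.2.2.2.2.2.2
    rw [← h1, ← h2]
  have hmaps : f '' S ⊆ PS := by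
    rintro _ ⟨⟨a, b, c⟩, ht, rfl⟩
    obtain ⟨⟨h1, h2, _, h3, _, _, h4⟩, h5⟩ := hS _ _ _ ht
    exact ⟨⟨h1, h2, h3⟩, h5 h4.symm⟩
  have hfin' : (f '' S).Finite := hfin.subset hmaps
  refine ⟨Set.Finite.of_finite_image hfin' hinj, ?_⟩
  rw [← hinj.ncard_image]
  refine le_trans ?_ hcardPS
  exact_mod_cast Set.ncard_le_ncard hmaps hfin

theorem N_swap (t : ℕ × ℕ) : N t.swap = N t := by
  unfold N
  simp only [Prod.fst_swap, Prod.snd_swap]
  ring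

theorem ht_swap (t : ℕ × ℕ) : ht t.swap = ht t := by
  unfold ht
  simp only [Prod.fst_swap, Prod.snd_swap]
  rw [add_comm]

theorem shape_iff (Y : ℕ) (η : ℝ) (k m : ℕ) :
    Shape Y η k m ↔ Pool.Agent.Lib.Pabc11.Shape Y η k m := Iff.rfl

/-- The condition on the two smaller members or a divisor, for ordered pairs. -/
theorem small_of {δ δ0 z : ℝ} (hδ : δ0 ≤ δ) {t : ℕ × ℕ} (h : IsT t)
    (hs : ((min t.1 t.2 : ℕ) : ℝ) ≤ ((t.1 + t.2 : ℕ) : ℝ) ^ (1 - δ) ∨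
      ∃ M : ℕ, (M ∣ t.1 ∨ M ∣ t.2 ∨ M ∣ t.1 + t.2) ∧ ((t.1 + t.2 : ℕ) : ℝ) ^ δ ≤ M ∧
        (rad M : ℝ) ≤ z) : Pool.Agent.Lib.Pabc11.Small δ0 z t := by
  have ha : (0 : ℝ) < t.1 := by exact_mod_cast h.1
  have hb : (0 : ℝ) < t.2 := by exact_mod_cast h.pos2
  have hc : (0 : ℝ) < ((t.1 + t.2 : ℕ) : ℝ) := by push_cast; positivity
  have hht : ht t = Real.log ((t.1 + t.2 : ℕ) : ℝ) := by
    unfold ht
    push_cast
    rfl
  have hh0 : 0 ≤ ht t := by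
    rw [hht]
    apply Real.log_nonneg
    have h1 : 1 ≤ t.1 + t.2 := by have := h.1; omega
    exact_mod_cast h1
  rcases hs with hs | ⟨M, hM, hMc, hMz⟩
  · left
    rw [min_eq_left h.2.1] at hs
    have h1 := Real.log_le_log ha hs
    rw [Real.log_rpow hc, ← hht] at h1
    nlinarith
  · right
    have h1 := Real.log_le_log (Real.rpow_pos_of_pos hc δ) hMc
    rw [Real.log_rpow hc, ← hht] at h1
    have h2 : (∏ p ∈ M.primeFactors, (p : ℝ)) ≤ z := by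
      unfold rad at hMz
      push_cast at hMz
      exact hMz
    have h3 : δ0 * ht t ≤ Real.log M := by nlinarith
    rcases hM with hM | hM | hM
    · refine ⟨0, M, ?_, h2, h3⟩
      have e0 : comp t 0 = t.1 := by simp [comp]
      rw [e0]; exact hM
    · refine ⟨1, M, ?_, h2, h3⟩
      have e0 : comp t 1 = t.2 := by simp [comp]
      rw [e0]; exact hM
    · refine ⟨2, M, ?_, h2, h3⟩
      have e0 : comp t 2 = t.1 + t.2 := by simp [comp]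
      rw [e0]; exact hM

/-- If a member is not nearly a prime power, then the triple is small with exponent `1/4`. -/
theorem small_of_not_near {δ δ1 : ℝ} {Y : ℕ} (hδ1 : 0 < δ1) (hδ : δ1 ≤ δ) (hδ2 : δ1 ≤ 2 / 5)
    {t : ℕ × ℕ} (h : IsT t) (hr : rd t ≤ Y)
    (hn : ¬ (((t.1 + t.2 : ℕ) : ℝ) ^ (1 - δ) < t.1 ∧ ((t.1 + t.2 : ℕ) : ℝ) ^ (1 - δ) < t.2 ∧
      Near δ (t.1 + t.2) t.1 ∧ Near δ (t.1 + t.2) t.2 ∧ Near δ (t.1 + t.2) (t.1 + t.2))) :
    Pool.Agent.Lib.Pabc11.Small (δ1 / 2) ((Y : ℝ) ^ (1 / 4 : ℝ)) t := by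
  have ha : (0 : ℝ) < t.1 := by exact_mod_cast h.1
  have hab : (t.1 : ℝ) ≤ t.2 := by exact_mod_cast h.2.1
  have hc : (0 : ℝ) < ((t.1 + t.2 : ℕ) : ℝ) := by push_cast; positivity
  have hc1 : (1 : ℝ) ≤ ((t.1 + t.2 : ℕ) : ℝ) := by
    have h1 : 1 ≤ t.1 + t.2 := by have := h.1; omega
    exact_mod_cast h1
  have hht : ht t = Real.log ((t.1 + t.2 : ℕ) : ℝ) := by
    unfold ht
    push_cast
    rfl
  have hh0 : 0 ≤ ht t := by
    rw [hht]
    exact Real.log_nonneg hc1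
  -- a member which is not nearly a prime power
  have main : ∀ l : Fin 3, ¬ Near δ (t.1 + t.2) (comp t l) →
      Pool.Agent.Lib.Pabc11.Small (δ1 / 2) ((Y : ℝ) ^ (1 / 4 : ℝ)) t := by
    intro l hnl
    apply Pool.Agent.Lib.Pabc11.small_quarter h hr hδ1 hδ2 l
    intro p hp
    have hpp := Nat.prime_of_mem_primeFactors hp
    have hm0 : 0 < comp t l := comp_pos h l
    by_contra hcon
    apply hnl
    refine ⟨comp t l / p ^ (comp t l).factorization p, p, (comp t l).factorization p, hpp,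
      (Nat.div_mul_cancel (Nat.ordProj_dvd _ _)).symm, ?_⟩
    have hA0 : 0 < comp t l / p ^ (comp t l).factorization p :=
      Nat.div_pos (Nat.le_of_dvd hm0 (Nat.ordProj_dvd _ _)) (pow_pos hpp.pos _)
    have e1 : Real.log (comp t l) =
        Real.log ((comp t l / p ^ (comp t l).factorization p : ℕ) : ℝ) +
          ((comp t l).factorization p : ℝ) * Real.log p := by
      rw [← Real.log_pow, ← Real.log_mul (by exact_mod_cast hA0.ne')
        (by exact_mod_cast (pow_pos hpp.pos _).ne')]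
      congr 1
      exact_mod_cast (Nat.div_mul_cancel (Nat.ordProj_dvd (comp t l) p)).symm
    have h3 : Real.log ((comp t l / p ^ (comp t l).factorization p : ℕ) : ℝ) < δ * ht t := by
      have h4 : δ1 * ht t ≤ δ * ht t := mul_le_mul_of_nonneg_right hδ hh0
      rw [not_le] at hcon
      linarith
    rw [hht, ← Real.log_rpow hc] at h3
    exact (Real.log_lt_log_iff (by exact_mod_cast hA0) (Real.rpow_pos_of_pos hc _)).1 h3
  by_cases h1 : ((t.1 + t.2 : ℕ) : ℝ) ^ (1 - δ) < t.1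
  · have h2 : ((t.1 + t.2 : ℕ) : ℝ) ^ (1 - δ) < t.2 := lt_of_lt_of_le h1 hab
    by_cases h3 : Near δ (t.1 + t.2) t.1
    · by_cases h4 : Near δ (t.1 + t.2) t.2
      · have h5 : ¬ Near δ (t.1 + t.2) (t.1 + t.2) := fun h5 => hn ⟨h1, h2, h3, h4, h5⟩
        apply main 2
        have e0 : comp t 2 = t.1 + t.2 := by simp [comp]
        rw [e0]; exact h5
      · apply main 1
        have e0 : comp t 1 = t.2 := by simp [comp]
        rw [e0]; exact h4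
    · apply main 0
      have e0 : comp t 0 = t.1 := by simp [comp]
      rw [e0]; exact h3
  · left
    have h6 := Real.log_le_log ha (not_lt.1 h1)
    rw [Real.log_rpow hc, ← hht] at h6
    have h7 : 0 ≤ (δ - δ1 / 2) * ht t := mul_nonneg (by linarith) hh0
    linarith

/-- For all `ε, δ > 0` there are `K, η > 0` and `C ≥ 1` such that for all sufficiently large `Y`:

for all `z ≥ 1` at most `z * Y ^ ε` abc-triples `(a, b, c)` satisfy
* `rad (abc) ≤ Y` and `log c ≥ Y ^ (K / log log Y)`, or, for some `k`, `abc = s * ∏_{i ≤ k} x i ^ e i`,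
  `rad s * ∏ x i ≤ Y`, `rad s ≤ Y ^ η` and `log c ≥ C ^ (k + 1) log Y`, and
* `min a b ≤ c ^ (1 - δ)`, or one of `a, b, c` has a divisor `M ≥ c ^ δ` of radical at most `z`.

In particular at most `Y ^ (1/3 + ε)` abc-triples have `rad (abc) ≤ Y` and
`log c ≥ Y ^ (K / log log Y)`, and all but at most `Y ^ (1/4 + ε)` of these triples have
`a, b > c ^ (1 - δ)` and are of the form `(A * p ^ x, B * q ^ y, C * r ^ z)` with `p, q, r` prime and
`A, B, C < c ^ δ`. -/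
theorem result (ε δ : ℝ) (hε : 0 < ε) (hδ : 0 < δ) :
    ∃ K η C : ℝ, 0 < K ∧ 0 < η ∧ 1 ≤ C ∧ ∀ᶠ Y : ℕ in atTop,
      (∀ z : ℝ, 1 ≤ z → (high δ K C η z Y).Finite ∧
        ((high δ K C η z Y).ncard : ℝ) ≤ z * (Y : ℝ) ^ ε) ∧
      (tall K Y).Finite ∧ ((tall K Y).ncard : ℝ) ≤ (Y : ℝ) ^ (1 / 3 + ε) ∧
      ((mixed δ K Y).ncard : ℝ) ≤ (Y : ℝ) ^ (1 / 4 + ε) := by
  have hd0 : 0 < min δ (2 / 5) := lt_min hδ (by norm_num)
  have hd2 : min δ (2 / 5) ≤ 2 / 5 := min_le_right _ _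
  have hdδ : min δ (2 / 5) ≤ δ := min_le_left _ _
  obtain ⟨η, C, hη, hC, hev⟩ := Pool.Agent.Lib.Pabc11.main_shape ε (min δ (2 / 5) / 2) hε
    (by positivity) (by linarith)
  obtain ⟨K, hK, hsh⟩ := Pool.Agent.Lib.Pabc11.shape_of_tall η C hη hC
  refine ⟨K, η, C, hK, hη, hC, ?_⟩
  filter_upwards [hev, hsh, eventually_ge_atTop 1] with Y hY hsh hY1
  have hY1' : (1 : ℝ) ≤ Y := by exact_mod_cast hY1
  have hY0 : (0 : ℝ) < Y := by linarith
  have h13 : (Y : ℝ) ^ (1 / 3 + ε) = (Y : ℝ) ^ (1 / 3 : ℝ) * (Y : ℝ) ^ ε := by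
    rw [← Real.rpow_add hY0]
  have h14 : (Y : ℝ) ^ (1 / 4 + ε) = (Y : ℝ) ^ (1 / 4 : ℝ) * (Y : ℝ) ^ ε := by
    rw [← Real.rpow_add hY0]
  have htall := to_triples (fun t => rad (N t) ≤ Y ∧
      (Y : ℝ) ^ (K / Real.log (Real.log Y)) ≤ ht t) (by
      rintro ⟨a, b⟩ ⟨h1, h2⟩
      refine ⟨?_, ?_⟩
      · rw [N_swap]; exact h1
      · rw [ht_swap]; exact h2) _ (by
      intro T hT
      apply hY _ T (Real.one_le_rpow hY1' (by norm_num : (0 : ℝ) ≤ 1 / 3))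
      intro t ht'
      obtain ⟨hI, h1, h2⟩ := hT t ht'
      exact ⟨hI, Pool.Agent.Lib.Pabc11.small_third hI h1 (by linarith), hsh t hI h1 h2⟩)
    (tall K Y) (by
      rintro a b c ⟨habc, h1, h2⟩
      refine ⟨habc, fun hc => ?_⟩
      simp only at h1 h2
      subst hc
      refine ⟨h1, ?_⟩
      unfold ht
      push_cast at h2
      exact h2)
  refine ⟨?_, htall.1, ?_, ?_⟩
  · intro z hz
    refine to_triples (fun t => ((rad (N t) ≤ Y ∧ (Y : ℝ) ^ (K / Real.log (Real.log Y)) ≤ ht t) ∨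
        ∃ k, Shape Y η k (N t) ∧ C ^ (k + 1) * Real.log Y ≤ ht t) ∧
      (((min t.1 t.2 : ℕ) : ℝ) ≤ ((t.1 + t.2 : ℕ) : ℝ) ^ (1 - δ) ∨
        ∃ M : ℕ, (M ∣ t.1 ∨ M ∣ t.2 ∨ M ∣ t.1 + t.2) ∧ ((t.1 + t.2 : ℕ) : ℝ) ^ δ ≤ M ∧
          (rad M : ℝ) ≤ z)) ?_ _ ?_ _ ?_
    · rintro ⟨a, b⟩ ⟨h1, h2⟩
      rw [N_swap, ht_swap]
      refine ⟨h1, ?_⟩
      simp only [Prod.fst_swap, Prod.snd_swap] at h2 ⊢
      rw [add_comm b a, min_comm b a]
      rcases h2 with h2 | ⟨M, h2, h4, h5⟩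
      · exact Or.inl h2
      · exact Or.inr ⟨M, by tauto, h4, h5⟩
    · intro T hT
      apply hY z T hz
      intro t ht'
      obtain ⟨hI, h1, h2⟩ := hT t ht'
      refine ⟨hI, small_of (by linarith) hI h2, ?_⟩
      rcases h1 with ⟨h1, h3⟩ | h1
      · exact hsh t hI h1 h3
      · exact h1
    · rintro a b c ⟨habc, h1, h2⟩
      refine ⟨habc, fun hc => ?_⟩
      simp only at h1 h2
      subst hc
      refine ⟨?_, h2⟩
      have hh : ht (a, b) = Real.log ((a + b : ℕ) : ℝ) := by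
        unfold ht
        push_cast
        rfl
      rw [hh]
      rcases h1 with ⟨_, h1, h3⟩ | h1
      · exact Or.inl ⟨h1, h3⟩
      · exact Or.inr h1
  · rw [h13]
    exact htall.2
  · rw [h14]
    refine (to_triples (fun t => (rad (N t) ≤ Y ∧
      (Y : ℝ) ^ (K / Real.log (Real.log Y)) ≤ ht t) ∧
      ¬ (((t.1 + t.2 : ℕ) : ℝ) ^ (1 - δ) < t.1 ∧ ((t.1 + t.2 : ℕ) : ℝ) ^ (1 - δ) < t.2 ∧
        Near δ (t.1 + t.2) t.1 ∧ Near δ (t.1 + t.2) t.2 ∧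
        Near δ (t.1 + t.2) (t.1 + t.2))) ?_ _ ?_ (mixed δ K Y) ?_).2
    · rintro ⟨a, b⟩ ⟨⟨h1, h2⟩, h3⟩
      refine ⟨⟨?_, ?_⟩, ?_⟩
      · rw [N_swap]; exact h1
      · rw [ht_swap]; exact h2
      · simp only [Prod.fst_swap, Prod.snd_swap] at h3 ⊢
        rw [add_comm b a]
        tauto
    · intro T hT
      apply hY _ T (Real.one_le_rpow hY1' (by norm_num : (0 : ℝ) ≤ 1 / 4))
      intro t ht'
      obtain ⟨hI, ⟨h1, h2⟩, h3⟩ := hT t ht'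
      exact ⟨hI, small_of_not_near hd0 hdδ hd2 hI h1 h3, hsh t hI h1 h2⟩
    · rintro a b c ⟨⟨habc, h1, h2⟩, h3⟩
      refine ⟨habc, fun hc => ?_⟩
      simp only at h1 h2 h3
      subst hc
      refine ⟨⟨h1, ?_⟩, h3⟩
      unfold ht
      push_cast at h2
      exact h2

end Pool.Agent.Results.MP_2ec8a3_nt.TallTriples
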