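import Mathlib
import Pool.Agent.Lib.Pabc1.SCover
import Pool.Agent.Lib.Pabc1.SLower

open Filter

namespace Pool.Agent.Results.MP_2ec8a3_nt.TwoThirds

/-- The radical of `n`: the product of the distinct primes dividing `n`. -/
def rad (n : ℕ) : ℕ := ∏ p ∈ n.primeFactors, p

/-- `(a, b, c)` is an abc-triple: pairwise coprime positive integers with `a + b = c`. -/
def AbcTriple (a b c : ℕ) : Prop :=
  0 < a ∧ 0 < b ∧ 0 < c ∧ a.Coprime b ∧ a.Coprime c ∧ b.Coprime c ∧ a + b = c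

/-- The abc-triples `(a, b, c)` with `rad (abc) ≤ Y` and `log c ≤ H`. -/
def triples (H : ℝ) (Y : ℕ) : Set (ℕ × ℕ × ℕ) :=
  {t | AbcTriple t.1 t.2.1 t.2.2 ∧ rad (t.1 * t.2.1 * t.2.2) ≤ Y ∧ Real.log t.2.2 ≤ H}

open Pool.Agent.Lib.Pabc1 Pool.Agent.Lib.Pabc2

theorem lower (Y : ℕ) (H : ℝ) (hY : 13824 ≤ Y) (hH : Real.log Y ≤ H)
    (hfin : (triples H Y).Finite) : 1 / 4 * (Y : ℝ) ^ (2 / 3 : ℝ) ≤ (triples H Y).ncard := by
  classical
  have hY0 : (0 : ℝ) < Y := by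
    have : 0 < Y := by omega
    exact_mod_cast this
  set y : ℝ := (Y : ℝ) ^ (1 / 3 : ℝ) with hy
  have hy0 : 0 < y := Real.rpow_pos_of_pos hY0 _
  have hy3 : y ^ 3 = Y := by
    rw [hy, ← Real.rpow_natCast, ← Real.rpow_mul hY0.le]
    norm_num
  have hy2 : y ^ 2 = (Y : ℝ) ^ (2 / 3 : ℝ) := by
    rw [hy, ← Real.rpow_natCast, ← Real.rpow_mul hY0.le]
    norm_num
  have hy24 : 24 ≤ y := by
    have h1 : (24 : ℝ) ^ 3 ≤ y ^ 3 := by
      rw [hy3]
      have : ((13824 : ℕ) : ℝ) ≤ Y := by exact_mod_cast hY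
      push_cast at this
      linarith
    exact le_of_pow_le_pow_left₀ (by norm_num) hy0.le h1
  set m : ℕ := ⌊3 / 4 * y⌋₊ with hm
  have hm1 : (m : ℝ) ≤ 3 / 4 * y := Nat.floor_le (by positivity)
  have hm2 : 3 / 4 * y < m + 1 := Nat.lt_floor_add_one _
  have hm0 : (0 : ℝ) ≤ m := Nat.cast_nonneg m
  have hm3 : 2 * (m : ℝ) ^ 3 ≤ Y := by
    rw [← hy3]
    have : (m : ℝ) ^ 3 ≤ (3 / 4 * y) ^ 3 := pow_le_pow_left₀ hm0 hm1 3
    have h3 : 0 < y ^ 3 := by positivity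
    nlinarith
  have hm3' : 2 * m ^ 3 ≤ Y := by exact_mod_cast hm3
  set f : ℕ × ℕ → ℕ × ℕ × ℕ := fun t => (t.1, t.2, t.1 + t.2) with hf
  have hinj : Function.Injective f := by
    rintro ⟨a, b⟩ ⟨a', b'⟩ h
    simp only [hf, Prod.mk.injEq] at h
    rw [h.1, h.2.1]
  have hsub : ((cop m).image f : Set (ℕ × ℕ × ℕ)) ⊆ triples H Y := by
    rintro ⟨a, b, c⟩ h
    rw [Finset.mem_coe, Finset.mem_image] at h
    obtain ⟨⟨a', b'⟩, h1, h2⟩ := h
    simp only [hf, Prod.mk.injEq] at h2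
    obtain ⟨rfl, rfl, rfl⟩ := h2
    unfold cop at h1
    rw [Finset.mem_filter, Finset.mem_product, Finset.mem_Icc, Finset.mem_Icc] at h1
    obtain ⟨⟨⟨ha1, ha2⟩, ⟨hb1, hb2⟩⟩, hc⟩ := h1
    simp only at ha1 ha2 hb1 hb2 hc
    have hab : a' * b' * (a' + b') ≤ Y := by
      calc a' * b' * (a' + b') ≤ m * m * (m + m) := by gcongr
        _ = 2 * m ^ 3 := by ring
        _ ≤ Y := hm3'
    have hpos : 0 < a' * b' * (a' + b') := by positivity
    refine ⟨⟨ha1, hb1, by simp only; omega, hc, ?_, ?_, rfl⟩, ?_, ?_⟩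
    · simp only
      exact (Nat.coprime_self_add_right).mpr hc
    · simp only
      exact (Nat.coprime_add_self_right).mpr hc.symm
    · simp only
      refine le_trans (Nat.le_of_dvd hpos ?_) hab
      exact Nat.prod_primeFactors_dvd _
    · simp only
      refine le_trans ?_ hH
      apply Real.log_le_log
      · have : 0 < a' + b' := by omega
        exact_mod_cast this
      · have h5 : a' + b' ≤ Y := by
          refine le_trans ?_ hab
          exact Nat.le_mul_of_pos_left _ (by positivity)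
        exact_mod_cast h5
  have hcard : (cop m).card ≤ (triples H Y).ncard := by
    have h1 := Set.ncard_le_ncard hsub hfin
    rw [Set.ncard_coe_finset, Finset.card_image_of_injective _ hinj] at h1
    exact h1
  have h2 := cop_card m
  have h3 : ((cop m).card : ℝ) ≤ (triples H Y).ncard := by exact_mod_cast hcard
  rw [← hy2]
  nlinarith

/-- For all positive reals `θ` and `η` and all sufficiently large `Y`: for every real `H` with
`log Y ≤ H ≤ Y ^ θ` the number of abc-triples with `rad (abc) ≤ Y` and `log c ≤ H` is at least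
`Y ^ (2/3) / 4` and at most `Y ^ (2/3 + θ + η)`. -/
theorem result (θ η : ℝ) (hθ : 0 < θ) (hη : 0 < η) : ∀ᶠ Y : ℕ in atTop, ∀ H : ℝ,
    Real.log Y ≤ H → H ≤ (Y : ℝ) ^ θ → (triples H Y).Finite ∧
      1 / 4 * (Y : ℝ) ^ (2 / 3 : ℝ) ≤ (triples H Y).ncard ∧
      ((triples H Y).ncard : ℝ) ≤ (Y : ℝ) ^ (2 / 3 + θ + η) := by
  filter_upwards [main_two_thirds θ η hθ.le hη, eventually_ge_atTop 13824] with Y hY hY1 H hH1 hH2
  obtain ⟨h1, h2⟩ := transfer Y H ((Y : ℝ) ^ (2 / 3 + θ + η)) (by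
    intro T hT
    apply hY T
    intro t ht'
    exact ⟨(hT t ht').1, (hT t ht').2.1, (hT t ht').2.2.trans hH2⟩) (triples H Y) (by
    rintro ⟨a, b, c⟩ ⟨⟨h1, h2, h0, h3, _, _, h4⟩, h5, h6⟩
    exact ⟨h1, h2, h3, h4, h5, h6⟩)
  exact ⟨h1, lower Y H hY1 hH1 h1, h2⟩

end Pool.Agent.Results.MP_2ec8a3_nt.TwoThirds
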